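import Mathlib

/-!
# VI-T9: the alternating sum

PROOF. Expand `∏ i, (N i + ∑_{j ∈ S} e j i) = ∑_φ ∏ i, t (φ i) i`, `φ : G → Option G`, over the `φ` with
`φ i ∈ S ∪ {none}` (`t none i = N i`, `t (some j) i = e j i`; `Finset.prod_add` / `Finset.prod_univ_sum`). Interchange:
`∑_{S ⊇ im φ} (-1)^|S| = 0` unless `im φ ⊇ G`, i.e. `φ = some ∘ π` with a permutation `π`
(`Finset.sum_pow_card..`/`Finset.sum_powerset_neg_one_pow_card`). So the sum is
`(-1)^|G| ∑_π ∏ i, e (π i) i`, all terms are `≥ 0` and the identity gives `≥ 1`.
-/

namespace Pool.Agent.Helper9.VI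

theorem alt_sum_ne {G : Type} [Fintype G] [DecidableEq G] (e : G → G → ℕ) (he : ∀ g, 1 ≤ e g g)
    (N : G → ℤ) :
    ∑ S : Finset G, (-1 : ℤ) ^ S.card * ∏ i, (N i + ∑ j ∈ S, (e j i : ℤ)) ≠ 0 := by
  classical
  let t : Option G → G → ℤ := fun o i => o.elim (N i) (fun j => (e j i : ℤ))
  let P : (G → Option G) → Finset G → Prop := fun φ S => ∀ i, ∀ j, φ i = some j → j ∈ S
  have h1 : ∀ S : Finset G, ∏ i, (N i + ∑ j ∈ S, (e j i : ℤ)) =
      ∑ φ : G → Option G, if P φ S then ∏ i, t (φ i) i else 0 := by
    intro S
    have h2 : ∀ i, N i + ∑ j ∈ S, (e j i : ℤ) =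
        ∑ o : Option G, if (∀ j, o = some j → j ∈ S) then t o i else 0 := by
      intro i
      rw [Fintype.sum_option]
      simp [t]
    calc ∏ i, (N i + ∑ j ∈ S, (e j i : ℤ))
        = ∏ i, ∑ o : Option G, (if (∀ j, o = some j → j ∈ S) then t o i else 0) :=
          Finset.prod_congr rfl (fun i _ => h2 i)
      _ = ∑ φ : G → Option G, ∏ i, (if (∀ j, φ i = some j → j ∈ S) then t (φ i) i else 0) := by
          rw [Finset.prod_univ_sum, Fintype.piFinset_univ]
      _ = _ := by
          refine Finset.sum_congr rfl (fun φ _ => ?_)
          split_ifs with h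
          · exact Finset.prod_congr rfl (fun i _ => if_pos (h i))
          · simp only [P, not_forall] at h
            obtain ⟨i, j, hij, hj⟩ := h
            refine Finset.prod_eq_zero (Finset.mem_univ i) (if_neg ?_)
            intro hh
            exact hj (hh j hij)
  have h3 : ∀ φ : G → Option G, (∑ S : Finset G, if P φ S then (-1 : ℤ) ^ S.card else 0) =
      if (∀ j, ∃ i, φ i = some j) then (-1 : ℤ) ^ Fintype.card G else 0 := by
    intro φ
    split_ifs with h
    · rw [Finset.sum_eq_single (Finset.univ : Finset G)]
      · rw [if_pos (fun i j _ => Finset.mem_univ j), Finset.card_univ]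
      · intro S _ hS
        refine if_neg (fun hP => hS ?_)
        rw [Finset.eq_univ_iff_forall]
        intro j
        obtain ⟨i, hi⟩ := h j
        exact hP i j hi
      · intro h'
        exact absurd (Finset.mem_univ _) h'
    · push Not at h
      obtain ⟨j₀, hj₀⟩ := h
      have hP : ∀ S : Finset G, P φ (symmDiff S {j₀}) ↔ P φ S := by
        intro S
        refine forall_congr' (fun i => forall_congr' (fun j => ?_))
        refine imp_congr_right (fun hij => ?_)
        have hne : j ≠ j₀ := by
          rintro rfl
          exact hj₀ i hij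
        rw [Finset.mem_symmDiff]
        simp [hne]
      refine Finset.sum_involution (fun S _ => symmDiff S {j₀}) ?_ ?_ ?_ ?_
      · intro S _
        by_cases hS : P φ S
        · rw [if_pos hS, if_pos ((hP S).2 hS)]
          by_cases hm : j₀ ∈ S
          · have : symmDiff S {j₀} = S.erase j₀ := by
              ext x
              rw [Finset.mem_symmDiff, Finset.mem_erase]
              by_cases hx : x = j₀
              · subst hx; simp [hm]
              · simp [hx]
            rw [this, ← Finset.card_erase_add_one hm, pow_succ]
            ring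
          · have : symmDiff S {j₀} = insert j₀ S := by
              ext x
              rw [Finset.mem_symmDiff, Finset.mem_insert]
              by_cases hx : x = j₀
              · subst hx; simp [hm]
              · simp [hx]
            rw [this, Finset.card_insert_of_notMem hm, pow_succ]
            ring
        · rw [if_neg hS, if_neg (fun h => hS ((hP S).1 h))]
          ring
      · intro S _ _ hh
        have := symmDiff_eq_left.1 hh
        simp at this
      · intro S _
        exact Finset.mem_univ _
      · intro S _
        simp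
  have h4 : ∑ S : Finset G, (-1 : ℤ) ^ S.card * ∏ i, (N i + ∑ j ∈ S, (e j i : ℤ)) =
      (-1 : ℤ) ^ Fintype.card G *
        ∑ φ : G → Option G, if (∀ j, ∃ i, φ i = some j) then ∏ i, t (φ i) i else 0 := by
    calc ∑ S : Finset G, (-1 : ℤ) ^ S.card * ∏ i, (N i + ∑ j ∈ S, (e j i : ℤ))
        = ∑ S : Finset G, ∑ φ : G → Option G,
            (∏ i, t (φ i) i) * (if P φ S then (-1 : ℤ) ^ S.card else 0) := by
          refine Finset.sum_congr rfl (fun S _ => ?_)
          rw [h1 S, Finset.mul_sum]
          refine Finset.sum_congr rfl (fun φ _ => ?_)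
          split_ifs <;> ring
      _ = ∑ φ : G → Option G, (∏ i, t (φ i) i) *
            ∑ S : Finset G, (if P φ S then (-1 : ℤ) ^ S.card else 0) := by
          rw [Finset.sum_comm]
          refine Finset.sum_congr rfl (fun φ _ => ?_)
          rw [Finset.mul_sum]
      _ = _ := by
          rw [Finset.mul_sum]
          refine Finset.sum_congr rfl (fun φ _ => ?_)
          rw [h3 φ]
          split_ifs <;> ring
  rw [h4]
  refine mul_ne_zero (pow_ne_zero _ (by norm_num)) (ne_of_gt ?_)
  refine Finset.sum_pos' ?_ ⟨fun i => some i, Finset.mem_univ _, ?_⟩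
  · intro φ _
    split_ifs with h
    · refine Finset.prod_nonneg (fun i _ => ?_)
      have hne : φ i ≠ none := by
        -- the map `φ` hits every `some j`; if `φ i = none` there would be too many values
        intro hi
        choose f hf using h
        have hinj : Function.Injective f := by
          intro a b hab
          have := hf a
          rw [hab, hf b] at this
          exact (Option.some.inj this).symm
        obtain ⟨j, hj⟩ := (Finite.injective_iff_surjective.1 hinj) i
        have := hf j
        rw [hj, hi] at this
        exact absurd this (by simp)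
      obtain ⟨j, hj⟩ := Option.ne_none_iff_exists'.1 hne
      rw [hj]
      simp [t]
    · exact le_refl _
  · rw [if_pos (fun j => ⟨j, rfl⟩)]
    refine Finset.prod_pos (fun i _ => ?_)
    simp only [t, Option.elim]
    exact_mod_cast he i

end Pool.Agent.Helper9.VI
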