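import Mathlib

/-!
# VI-T8: the Clifford operator

PROOF. Choose a linear order on `G` (transport from `Fin (card G)`), and
`σ g S = (-1)^#{h ∈ S, h < g}`. Then `σ g S` does not change when `g` is added to or removed from `S`,
and for `g ≠ h`: `σ g (S △ h) σ h S = - σ h (S △ g) σ g S` (exactly one of `g < h`, `h < g` holds). So in
`PhiOp (PhiOp h) S` the terms with two different indices cancel in pairs and the terms with the same index
give `s g * s' g` (both for `g ∈ S` and `g ∉ S`), in total `∑ s g * s' g = 1`.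
-/

namespace Pool.Agent.Helper9.VI

noncomputable section

variable {G : Type} [Fintype G] [DecidableEq G]

/-- the operator `∑ s_g a_g^† + s'_g a_g` -/
def PhiOp {R : Type} [CommRing R] (σ : G → Finset G → ℤ) (s s' : G → R) (h : Finset G → R) :
    Finset G → R := fun S =>
  ∑ g, if g ∈ S then (σ g S : R) * (s g * h (S.erase g)) else (σ g S : R) * (s' g * h (insert g S))

/-- toggle an element -/
def tog8 (g : G) (S : Finset G) : Finset G := if g ∈ S then S.erase g else insert g S

omit [Fintype G] in
theorem mem_tog8_self (g : G) (S : Finset G) : g ∈ tog8 g S ↔ g ∉ S := by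
  unfold tog8
  split_ifs with h <;> simp [h]

omit [Fintype G] in
theorem mem_tog8_ne {g k : G} (hgk : k ≠ g) (S : Finset G) : k ∈ tog8 g S ↔ k ∈ S := by
  unfold tog8
  split_ifs with h <;> simp [hgk]

omit [Fintype G] in
theorem tog8_tog8 (g : G) (S : Finset G) : tog8 g (tog8 g S) = S := by
  ext k
  by_cases hk : k = g
  · subst hk
    rw [mem_tog8_self, mem_tog8_self, not_not]
  · rw [mem_tog8_ne hk, mem_tog8_ne hk]

omit [Fintype G] in
theorem tog8_comm (g h : G) (S : Finset G) : tog8 g (tog8 h S) = tog8 h (tog8 g S) := by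
  by_cases hgh : g = h
  · subst hgh; rfl
  ext k
  by_cases hk : k = g
  · subst hk
    rw [mem_tog8_self, mem_tog8_ne hgh, mem_tog8_ne hgh, mem_tog8_self]
  · rw [mem_tog8_ne hk]
    by_cases hk' : k = h
    · subst hk'
      rw [mem_tog8_self, mem_tog8_self, mem_tog8_ne hk]
    · rw [mem_tog8_ne hk', mem_tog8_ne hk', mem_tog8_ne hk]

/-- the sign -/
def sg8 (g : G) (S : Finset G) : ℤ :=
  ∏ k ∈ S, if Fintype.equivFin G k < Fintype.equivFin G g then -1 else 1

theorem sg8_tog (h g : G) (S : Finset G) : sg8 h (tog8 g S) =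
    (if Fintype.equivFin G g < Fintype.equivFin G h then -1 else 1) * sg8 h S := by
  unfold tog8 sg8
  split_ifs with h1 h2 h2
  · rw [← Finset.mul_prod_erase S _ h1, if_pos h2]; ring
  · rw [← Finset.mul_prod_erase S _ h1, if_neg h2]; ring
  · rw [Finset.prod_insert h1, if_pos h2]
  · rw [Finset.prod_insert h1, if_neg h2]

theorem sg8_sq (g : G) (S : Finset G) : sg8 g S = 1 ∨ sg8 g S = -1 := by
  unfold sg8
  induction S using Finset.induction_on with
  | empty => left; simp
  | insert a S ha ih =>
    rw [Finset.prod_insert ha]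
    rcases ih with ih | ih <;> rw [ih] <;> split_ifs <;> simp

theorem sg8_anti {g h : G} (hgh : g ≠ h) (S : Finset G) :
    sg8 g S * sg8 h (tog8 g S) = -(sg8 h S * sg8 g (tog8 h S)) := by
  rw [sg8_tog, sg8_tog]
  have hne : Fintype.equivFin G g ≠ Fintype.equivFin G h := fun h' =>
    hgh ((Fintype.equivFin G).injective h')
  rcases lt_or_gt_of_ne hne with h1 | h1
  · rw [if_pos h1, if_neg h1.not_gt]; ring
  · rw [if_pos h1, if_neg h1.not_gt]; ring

theorem sg8_self (g : G) (S : Finset G) : sg8 g S * sg8 g (tog8 g S) = 1 := by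
  rw [sg8_tog, if_neg (lt_irrefl _)]
  rcases sg8_sq g S with h | h <;> rw [h] <;> norm_num

theorem PhiOp8_eq {R : Type} [CommRing R] (σ : G → Finset G → ℤ) (s s' : G → R)
    (h : Finset G → R) (S : Finset G) :
    PhiOp σ s s' h S = ∑ g, (σ g S : R) * ((if g ∈ S then s g else s' g) * h (tog8 g S)) := by
  unfold PhiOp
  refine Finset.sum_congr rfl fun g _ => ?_
  unfold tog8
  split_ifs <;> rfl

theorem exists_sign : ∃ σ : G → Finset G → ℤ, (∀ g S, σ g S = 1 ∨ σ g S = -1) ∧
    ∀ (R : Type) [CommRing R] (s s' : G → R), ∑ g, s g * s' g = 1 →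
      ∀ h : Finset G → R, PhiOp σ s s' (PhiOp σ s s' h) = h := by
  classical
  refine ⟨sg8, sg8_sq, ?_⟩
  intro R _ s s' hs h
  funext S
  rw [PhiOp8_eq]
  simp_rw [PhiOp8_eq]
  set F : G × G → R := fun q => (sg8 q.1 S : R) * ((if q.1 ∈ S then s q.1 else s' q.1) *
    ((sg8 q.2 (tog8 q.1 S) : R) * ((if q.2 ∈ tog8 q.1 S then s q.2 else s' q.2) *
      h (tog8 q.2 (tog8 q.1 S))))) with hF
  have e1 : ∑ g, (sg8 g S : R) * ((if g ∈ S then s g else s' g) * ∑ k, (sg8 k (tog8 g S) : R) *
      ((if k ∈ tog8 g S then s k else s' k) * h (tog8 k (tog8 g S)))) =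
      ∑ q : G × G, F q := by
    rw [Fintype.sum_prod_type]
    refine Finset.sum_congr rfl fun g _ => ?_
    rw [Finset.mul_sum, Finset.mul_sum]
  rw [e1]
  have e2 : ∑ q : G × G, F q = ∑ q ∈ (Finset.univ : Finset G).diag, F q +
      ∑ q ∈ (Finset.univ : Finset G).offDiag, F q := by
    rw [← Finset.sum_union (Finset.disjoint_diag_offDiag _), Finset.diag_union_offDiag]
    rfl
  rw [e2, Finset.sum_diag]
  have e3 : ∑ q ∈ (Finset.univ : Finset G).offDiag, F q = 0 := by
    apply Finset.sum_involution (fun q _ => (q.2, q.1))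
    · rintro ⟨g, k⟩ hq
      have hgk : g ≠ k := by simpa using hq
      have h1 : (sg8 g S : R) * (sg8 k (tog8 g S) : R) =
          -((sg8 k S : R) * (sg8 g (tog8 k S) : R)) := by
        have := sg8_anti hgk S
        exact_mod_cast congrArg (fun z : ℤ => (z : R)) this
      simp only [hF]
      rw [tog8_comm g k S]
      have h2 : (if k ∈ tog8 g S then s k else s' k) = (if k ∈ S then s k else s' k) := by
        simp only [mem_tog8_ne hgk.symm]
      have h3 : (if g ∈ tog8 k S then s g else s' g) = (if g ∈ S then s g else s' g) := by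
        simp only [mem_tog8_ne hgk]
      rw [h2, h3]
      linear_combination ((if g ∈ S then s g else s' g) * (if k ∈ S then s k else s' k) *
        h (tog8 k (tog8 g S))) * h1
    · rintro ⟨g, k⟩ hq _ heq
      have hgk : g ≠ k := by simpa using hq
      simp only [Prod.mk.injEq] at heq
      exact hgk heq.2
    · rintro ⟨g, k⟩ hq
      have hgk : g ≠ k := by simpa using hq
      simpa using hgk.symm
    · rintro ⟨g, k⟩ hq
      rfl
  rw [e3, add_zero]
  have e4 : ∀ g, F (g, g) = (s g * s' g) * h S := by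
    intro g
    simp only [hF]
    rw [tog8_tog8]
    have h1 : (sg8 g S : R) * (sg8 g (tog8 g S) : R) = 1 := by
      exact_mod_cast congrArg (fun z : ℤ => (z : R)) (sg8_self g S)
    by_cases hg : g ∈ S
    · have hg' : g ∉ tog8 g S := by rw [mem_tog8_self]; simpa using hg
      rw [if_pos hg, if_neg hg']
      linear_combination (s g * s' g * h S) * h1
    · have hg' : g ∈ tog8 g S := by rw [mem_tog8_self]; exact hg
      rw [if_neg hg, if_pos hg']
      linear_combination (s g * s' g * h S) * h1
  simp_rw [e4]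
  rw [← Finset.sum_mul, hs, one_mul]

end

end Pool.Agent.Helper9.VI
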