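import Pool.Agent.Helper9.VI.Top.Basis
import Pool.Agent.Helper9.VI.Top.Cliff

/-!
# VI-T10: the dimension count

PROOF. `e_S = ∑_{j ∈ S} e j`, `n_S = fun i => n i + ∑ j ∈ S, e j i`. Let `D = card G`,
`C ≥ ‖s g‖, ‖s' g‖`. Choose `ε` with `D² (C+1) ε ≤ 1/4`-ish and `n` (constant, large) such that for all `S` the `Asy` bounds
of all `s g`, `s' g` hold at `n_S` with `ε` (`N ≤ n_S i`), and no truncation occurs in
`shift n_{insert g S} (- e g) = n_S`. Let `P_S` be the projection onto `H n_S` (`exists_proj`), `W` the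
space of `h : Finset G → C(X G, ℂ)` with `h S ∈ H n_S`, `Φ = PhiOp σ s s'`, `(F h) S = P_S (Φ h S)`.
For `h ∈ W`: `n2 ((Φ h) S - P_S (Φ h S)) ≤ ε ∑_g n2 (h (S △ g))` (each term `s g h (S \ g)` is `ε`-close to
`H n_S`, `exists_proj` last item + triangle inequality). Hence with `|h| = ∑_S n2 (h S)`:
`|F F h - h| = |Π Φ (F h - Φ h)| ≤ D C · D ε |h| ≤ |h|/2`. `F` maps `W_even` (supported on sets of even
cardinality) to `W_odd` and back, linear; so `F` is injective on both (`F h = 0 → |h| ≤ |h|/2 → h = 0` by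
`n2_eq_zero`), so the dimensions agree: `finrank W_even = ∑_{|S| even} ∏ (n_S i + 1)` (`finrank_H`;
`W_even ≃ ∀ S : {even}, H n_S`).
-/

namespace Pool.Agent.Helper9.VI

open MeasureTheory Filter Topology
open scoped ComplexConjugate Nat

noncomputable section

variable {G : Type} [Fintype G] [DecidableEq G]

/-- the multi-degree attached to `S` -/
def nS (e : G → G → ℕ) (N : ℕ) (S : Finset G) : G → ℕ := fun i => N + ∑ j ∈ S, e j i

omit [Fintype G] in
theorem shift_up (e : G → G → ℕ) (N : ℕ) (S : Finset G) (g : G) (hg : g ∈ S) :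
    shift (nS e N (S.erase g)) (fun i => (e g i : ℤ)) = nS e N S := by
  funext i
  unfold shift nS
  rw [← Finset.sum_erase_add S _ hg]
  beta_reduce
  omega

omit [Fintype G] in
theorem shift_down (e : G → G → ℕ) (N : ℕ) (S : Finset G) (g : G) (hg : g ∉ S) :
    shift (nS e N (insert g S)) (fun i => -(e g i : ℤ)) = nS e N S := by
  funext i
  unfold shift nS
  rw [Finset.sum_insert hg]
  beta_reduce
  omega

theorem PhiOp_add (σ : G → Finset G → ℤ) (s s' : G → C(X G, ℂ)) (h k : Finset G → C(X G, ℂ)) :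
    PhiOp σ s s' (h + k) = PhiOp σ s s' h + PhiOp σ s s' k := by
  funext S
  simp only [PhiOp, Pi.add_apply, ← Finset.sum_add_distrib]
  refine Finset.sum_congr rfl fun g _ => ?_
  split_ifs <;> ring

theorem PhiOp_smul (σ : G → Finset G → ℤ) (s s' : G → C(X G, ℂ)) (c : ℂ)
    (h : Finset G → C(X G, ℂ)) :
    PhiOp σ s s' (c • h) = c • PhiOp σ s s' h := by
  funext S
  simp only [PhiOp, Pi.smul_apply, Finset.smul_sum]
  refine Finset.sum_congr rfl fun g _ => ?_
  split_ifs <;> simp only [mul_smul_comm]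

theorem n2_sign (m : ℤ) (hm : m = 1 ∨ m = -1) (f : C(X G, ℂ)) :
    n2 ((m : C(X G, ℂ)) * f) = n2 f := by
  rcases hm with rfl | rfl
  · simp
  · simp [n2_neg]

theorem key_inj (σ : G → Finset G → ℤ) (hσ : ∀ g S, σ g S = 1 ∨ σ g S = -1)
    (s s' : G → C(X G, ℂ)) (hsq : ∀ h : Finset G → C(X G, ℂ), PhiOp σ s s' (PhiOp σ s s' h) = h)
    (m : Finset G → G → ℕ) (P : Finset G → C(X G, ℂ) →ₗ[ℂ] C(X G, ℂ))
    (hP : ∀ S f, ∀ h ∈ H (m S), n2 (f - P S f) ≤ n2 (f - h))
    (C : ℝ) (hC0 : 0 ≤ C) (hC : ∀ g, ‖s g‖ ≤ C) (hC' : ∀ g, ‖s' g‖ ≤ C) (ε : ℝ) (hε0 : 0 ≤ ε)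
    (hε : (2 : ℝ) ^ Fintype.card G * (Fintype.card G * (C * (Fintype.card G * ε))) ≤ 1 / 2)
    (hup : ∀ g S, g ∈ S → ∀ h ∈ H (m (S.erase g)), ∃ h' ∈ H (m S), n2 (s g * h - h') ≤ ε * n2 h)
    (hdn : ∀ g S, g ∉ S → ∀ h ∈ H (m (insert g S)), ∃ h' ∈ H (m S),
      n2 (s' g * h - h') ≤ ε * n2 h)
    (h : Finset G → C(X G, ℂ)) (hh : ∀ S, h S ∈ H (m S)) (h0 : ∀ S, P S (PhiOp σ s s' h S) = 0) :
    h = 0 := by
  set T : ℝ := ∑ S : Finset G, n2 (h S) with hT
  have hle : ∀ S, n2 (h S) ≤ T := fun S =>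
    Finset.single_le_sum (f := fun S => n2 (h S)) (fun S _ => n2_nonneg _) (Finset.mem_univ S)
  have hT0 : 0 ≤ T := Finset.sum_nonneg fun S _ => n2_nonneg _
  -- each component of `Φ h` is small
  have h1 : ∀ S, n2 (PhiOp σ s s' h S) ≤ Fintype.card G * (ε * T) := by
    intro S
    have hex : ∀ g, ∃ y ∈ H (m S), n2 ((if g ∈ S then (σ g S : C(X G, ℂ)) * (s g * h (S.erase g))
        else (σ g S : C(X G, ℂ)) * (s' g * h (insert g S))) - y) ≤ ε * T := by
      intro g
      by_cases hg : g ∈ S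
      · obtain ⟨y, hy, hy2⟩ := hup g S hg _ (hh _)
        refine ⟨(σ g S : C(X G, ℂ)) * y, ?_, ?_⟩
        · rcases hσ g S with h | h
          · rw [h]; simpa using hy
          · rw [h]; simpa using (H (m S)).neg_mem hy
        · rw [if_pos hg, ← mul_sub, n2_sign _ (hσ g S)]
          exact hy2.trans (mul_le_mul_of_nonneg_left (hle _) hε0)
      · obtain ⟨y, hy, hy2⟩ := hdn g S hg _ (hh _)
        refine ⟨(σ g S : C(X G, ℂ)) * y, ?_, ?_⟩
        · rcases hσ g S with h | h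
          · rw [h]; simpa using hy
          · rw [h]; simpa using (H (m S)).neg_mem hy
        · rw [if_neg hg, ← mul_sub, n2_sign _ (hσ g S)]
          exact hy2.trans (mul_le_mul_of_nonneg_left (hle _) hε0)
    choose y hy hy2 using hex
    have h2 := hP S (PhiOp σ s s' h S) (∑ g, y g) (Submodule.sum_mem _ fun g _ => hy g)
    rw [h0 S, sub_zero] at h2
    refine h2.trans ?_
    unfold PhiOp
    rw [← Finset.sum_sub_distrib]
    refine (n2_sum_le _ _).trans ?_
    refine (Finset.sum_le_sum fun g _ => hy2 g).trans ?_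
    rw [Finset.sum_const, nsmul_eq_mul, Finset.card_univ]
  have h2 : ∀ S, n2 (h S) ≤ Fintype.card G * (C * (Fintype.card G * (ε * T))) := by
    intro S
    conv_lhs => rw [← hsq h]
    unfold PhiOp
    refine (n2_sum_le _ _).trans ?_
    have h3 : ∀ g, n2 (if g ∈ S then (σ g S : C(X G, ℂ)) * (s g * (PhiOp σ s s' h) (S.erase g))
        else (σ g S : C(X G, ℂ)) * (s' g * (PhiOp σ s s' h) (insert g S))) ≤
        C * (Fintype.card G * (ε * T)) := by
      intro g
      split_ifs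
      · rw [n2_sign _ (hσ g S)]
        refine (n2_mul_le _ _).trans ?_
        exact mul_le_mul (hC g) (h1 _) (n2_nonneg _) hC0
      · rw [n2_sign _ (hσ g S)]
        refine (n2_mul_le _ _).trans ?_
        exact mul_le_mul (hC' g) (h1 _) (n2_nonneg _) hC0
    refine (Finset.sum_le_sum fun g _ => h3 g).trans ?_
    rw [Finset.sum_const, nsmul_eq_mul, Finset.card_univ]
  have h4 : T ≤ 1 / 2 * T := by
    calc T ≤ ∑ S : Finset G, (Fintype.card G * (C * (Fintype.card G * (ε * T))) : ℝ) :=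
          Finset.sum_le_sum fun S _ => h2 S
      _ = ((2 : ℝ) ^ Fintype.card G * (Fintype.card G * (C * (Fintype.card G * ε)))) * T := by
          rw [Finset.sum_const, nsmul_eq_mul, Finset.card_univ, Fintype.card_finset]
          push_cast
          ring
      _ ≤ 1 / 2 * T := mul_le_mul_of_nonneg_right hε hT0
  have h5 : T = 0 := by linarith
  funext S
  refine n2_eq_zero (m S) (hh S) (le_antisymm ?_ (n2_nonneg _))
  exact (hle S).trans h5.le

theorem PhiOp_support (σ : G → Finset G → ℤ) (s s' : G → C(X G, ℂ)) (h : Finset G → C(X G, ℂ))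
    (b : ℕ) (hb : ∀ S, S.card % 2 ≠ b → h S = 0) (S : Finset G) (hS : S.card % 2 = b) :
    PhiOp σ s s' h S = 0 := by
  unfold PhiOp
  refine Finset.sum_eq_zero fun g _ => ?_
  split_ifs with hg
  · rw [hb (S.erase g), mul_zero, mul_zero]
    rw [Finset.card_erase_of_mem hg]
    have : 0 < S.card := Finset.card_pos.2 ⟨g, hg⟩
    omega
  · rw [hb (insert g S), mul_zero, mul_zero]
    rw [Finset.card_insert_of_notMem hg]
    omega

/-- extension by zero -/
def extZ (m : Finset G → G → ℕ) (b : ℕ) :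
    (∀ S : {S : Finset G // S.card % 2 = b}, H (m S.1)) →ₗ[ℂ] (Finset G → C(X G, ℂ)) where
  toFun h S := if hS : S.card % 2 = b then (h ⟨S, hS⟩ : C(X G, ℂ)) else 0
  map_add' h k := by
    funext S
    simp only [Pi.add_apply]
    split_ifs <;> simp
  map_smul' c h := by
    funext S
    simp only [Pi.smul_apply, RingHom.id_apply]
    split_ifs <;> simp

theorem extZ_mem (m : Finset G → G → ℕ) (b : ℕ)
    (h : ∀ S : {S : Finset G // S.card % 2 = b}, H (m S.1)) (S : Finset G) :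
    extZ m b h S ∈ H (m S) := by
  change (if hS : S.card % 2 = b then (h ⟨S, hS⟩ : C(X G, ℂ)) else 0) ∈ H (m S)
  split_ifs with hS
  · exact (h ⟨S, hS⟩).2
  · exact Submodule.zero_mem _

theorem extZ_zero (m : Finset G → G → ℕ) (b : ℕ)
    (h : ∀ S : {S : Finset G // S.card % 2 = b}, H (m S.1)) (S : Finset G) (hS : S.card % 2 ≠ b) :
    extZ m b h S = 0 := by
  change (if hS : S.card % 2 = b then (h ⟨S, hS⟩ : C(X G, ℂ)) else 0) = 0
  rw [dif_neg hS]

theorem extZ_inj (m : Finset G → G → ℕ) (b : ℕ)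
    (h : ∀ S : {S : Finset G // S.card % 2 = b}, H (m S.1)) (h0 : extZ m b h = 0) : h = 0 := by
  funext S
  have := congrFun h0 S.1
  change (if hS : S.1.card % 2 = b then (h ⟨S.1, hS⟩ : C(X G, ℂ)) else 0) = 0 at this
  rw [dif_pos S.2] at this
  exact Subtype.ext this

theorem finrank_le_of (σ : G → Finset G → ℤ) (s s' : G → C(X G, ℂ))
    (m : Finset G → G → ℕ) (P : Finset G → C(X G, ℂ) →ₗ[ℂ] C(X G, ℂ))
    (hPm : ∀ S f, P S f ∈ H (m S))
    (hinj : ∀ h : Finset G → C(X G, ℂ), (∀ S, h S ∈ H (m S)) →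
      (∀ S, P S (PhiOp σ s s' h S) = 0) → h = 0) (b b' : ℕ)
    (hbb : ∀ S : Finset G, S.card % 2 ≠ b' → S.card % 2 = b) :
    ∑ S : {S : Finset G // S.card % 2 = b}, ∏ i, (m S.1 i + 1) ≤
      ∑ S : {S : Finset G // S.card % 2 = b'}, ∏ i, (m S.1 i + 1) := by
  let L : (∀ S : {S : Finset G // S.card % 2 = b}, H (m S.1)) →ₗ[ℂ]
      (∀ S : {S : Finset G // S.card % 2 = b'}, H (m S.1)) :=
    { toFun := fun h S => ⟨P S.1 (PhiOp σ s s' (extZ m b h) S.1), hPm _ _⟩
      map_add' := fun h k => by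
        funext S
        apply Subtype.ext
        change P S.1 _ = P S.1 _ + P S.1 _
        rw [map_add, PhiOp_add, Pi.add_apply, map_add]
      map_smul' := fun c h => by
        funext S
        apply Subtype.ext
        change P S.1 _ = c • P S.1 _
        rw [map_smul, PhiOp_smul, Pi.smul_apply, map_smul] }
  have hL : Function.Injective L := by
    rw [injective_iff_map_eq_zero]
    intro h h0
    refine extZ_inj m b h (hinj _ (extZ_mem m b h) fun S => ?_)
    by_cases hS : S.card % 2 = b'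
    · have := congrArg Subtype.val (congrFun h0 ⟨S, hS⟩)
      exact this
    · rw [PhiOp_support σ s s' _ b (extZ_zero m b h) S (hbb S hS), map_zero]
  have h1 := LinearMap.finrank_le_finrank_of_injective hL
  rw [Module.finrank_pi_fintype, Module.finrank_pi_fintype] at h1
  simpa only [finrank_H] using h1

theorem dim_count (e : G → G → ℕ) (s s' : G → C(X G, ℂ))
    (hs : ∀ g, Asy (fun i => (e g i : ℤ)) (s g)) (hs' : ∀ g, Asy (fun i => -(e g i : ℤ)) (s' g))
    (hsum : ∑ g, s g * s' g = 1) :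
    ∃ n : G → ℕ, ∑ S : Finset G, (-1 : ℤ) ^ S.card *
      ∏ i, (((n i : ℤ) + 1) + ∑ j ∈ S, (e j i : ℤ)) = 0 := by
  obtain ⟨σ, hσ, hσ2⟩ := exists_sign (G := G)
  have hsq := hσ2 C(X G, ℂ) s s' hsum
  set C : ℝ := ∑ g, ‖s g‖ + ∑ g, ‖s' g‖ with hC
  have hCa : 0 ≤ ∑ g, ‖s g‖ := Finset.sum_nonneg fun g _ => norm_nonneg _
  have hCb : 0 ≤ ∑ g, ‖s' g‖ := Finset.sum_nonneg fun g _ => norm_nonneg _
  have hC0 : 0 ≤ C := add_nonneg hCa hCb
  have hC1 : ∀ g, ‖s g‖ ≤ C := fun g =>
    (Finset.single_le_sum (f := fun g => ‖s g‖) (fun g _ => norm_nonneg _)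
      (Finset.mem_univ g)).trans (le_add_of_nonneg_right hCb)
  have hC2 : ∀ g, ‖s' g‖ ≤ C := fun g =>
    (Finset.single_le_sum (f := fun g => ‖s' g‖) (fun g _ => norm_nonneg _)
      (Finset.mem_univ g)).trans (le_add_of_nonneg_left hCa)
  set K : ℝ := (2 : ℝ) ^ Fintype.card G * (Fintype.card G * (C * Fintype.card G)) with hK
  have hK0 : 0 ≤ K := by positivity
  set ε : ℝ := 1 / (2 * (K + 1)) with hε
  have hεpos : 0 < ε := by positivity
  have hεK : (2 : ℝ) ^ Fintype.card G * (Fintype.card G * (C * (Fintype.card G * ε))) ≤ 1 / 2 := by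
    have : (2 : ℝ) ^ Fintype.card G * (Fintype.card G * (C * (Fintype.card G * ε))) = K * ε := by
      rw [hK]; ring
    rw [this, hε, mul_one_div, div_le_iff₀ (by positivity)]
    linarith
  choose N1 hN1 using fun g => hs g ε hεpos
  choose N2 hN2 using fun g => hs' g ε hεpos
  set N : ℕ := ∑ g, N1 g + ∑ g, N2 g with hN
  have hNa : ∀ g, N1 g ≤ N := fun g =>
    (Finset.single_le_sum (f := N1) (fun g _ => Nat.zero_le _)
      (Finset.mem_univ g)).trans (Nat.le_add_right _ _)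
  have hNb : ∀ g, N2 g ≤ N := fun g =>
    (Finset.single_le_sum (f := N2) (fun g _ => Nat.zero_le _)
      (Finset.mem_univ g)).trans (Nat.le_add_left _ _)
  choose P hP1 hP2 hP3 hP4 using fun S : Finset G => exists_proj (nS e N S)
  have hinj := key_inj σ hσ s s' hsq (nS e N) P hP4 C hC0 hC1 hC2 ε hεpos.le hεK
    (by
      intro g S hg h hh
      obtain ⟨h', hh', h2⟩ := hN1 g (nS e N (S.erase g))
        (fun i => (hNa g).trans (Nat.le_add_right _ _)) h hh
      rw [shift_up e N S g hg] at hh'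
      exact ⟨h', hh', h2⟩)
    (by
      intro g S hg h hh
      obtain ⟨h', hh', h2⟩ := hN2 g (nS e N (insert g S))
        (fun i => (hNb g).trans (Nat.le_add_right _ _)) h hh
      rw [shift_down e N S g hg] at hh'
      exact ⟨h', hh', h2⟩)
  have hA := finrank_le_of σ s s' (nS e N) P hP1 hinj 0 1 (fun S hS => by omega)
  have hB := finrank_le_of σ s s' (nS e N) P hP1 hinj 1 0 (fun S hS => by omega)
  have hE := le_antisymm hA hB
  refine ⟨fun _ => N, ?_⟩
  set f : Finset G → ℤ := fun S => ∏ i, (((N : ℤ) + 1) + ∑ j ∈ S, (e j i : ℤ)) with hf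
  have hf2 : ∀ S, ((∏ i, (nS e N S i + 1) : ℕ) : ℤ) = f S := by
    intro S
    rw [hf]
    push_cast
    refine Finset.prod_congr rfl fun i _ => ?_
    unfold nS
    push_cast
    ring
  have hE2 : ∑ S : {S : Finset G // S.card % 2 = 0}, f S.1 =
      ∑ S : {S : Finset G // S.card % 2 = 1}, f S.1 := by
    have := congrArg (fun x : ℕ => (x : ℤ)) hE
    simp only [Nat.cast_sum, hf2] at this
    exact this
  have h3 : ∑ S : Finset G, (-1 : ℤ) ^ S.card * f S =
      ∑ S : {S : Finset G // S.card % 2 = 0}, (-1 : ℤ) ^ S.1.card * f S.1 +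
      ∑ S : {S : Finset G // ¬ S.card % 2 = 0}, (-1 : ℤ) ^ S.1.card * f S.1 :=
    (Fintype.sum_subtype_add_sum_subtype (fun S : Finset G => S.card % 2 = 0) _).symm
  have h4 : ∑ S : {S : Finset G // S.card % 2 = 0}, (-1 : ℤ) ^ S.1.card * f S.1 =
      ∑ S : {S : Finset G // S.card % 2 = 0}, f S.1 := by
    refine Finset.sum_congr rfl fun S _ => ?_
    rw [Even.neg_one_pow (Nat.even_iff.2 S.2), one_mul]
  have h5 : ∑ S : {S : Finset G // ¬ S.card % 2 = 0}, (-1 : ℤ) ^ S.1.card * f S.1 =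
      - ∑ S : {S : Finset G // S.card % 2 = 1}, f S.1 := by
    rw [← Finset.sum_neg_distrib]
    refine Fintype.sum_equiv (Equiv.subtypeEquivRight fun S => by omega) _ _ fun S => ?_
    have : S.1.card % 2 = 1 := by have := S.2; omega
    rw [Odd.neg_one_pow (Nat.odd_iff.2 this), neg_one_mul]
    rfl
  rw [h3, h4, h5, hE2, add_neg_cancel]

end

end Pool.Agent.Helper9.VI
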