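import Pool.Agent.Helper9.VI.Top.Dens
import Pool.Agent.Helper9.VI.Top.Count
import Pool.Agent.Helper9.VI.Top.Alt

/-!
# VI-T11: the multi Borsuk-Ulam theorem

PROOF. If the `s g` have no common zero, `r = ∑ |s g|²` is a positive continuous function of weight `0`, and
`s' g = conj (s g) / r` has weight `- e g` and `∑ s g * s' g = 1`. `asy_of_hasWt`, `dim_count`, `alt_sum_ne`.
-/

namespace Pool.Agent.Helper9.VI

open MeasureTheory Filter Topology
open scoped ComplexConjugate Nat

noncomputable section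

variable {G : Type} [Fintype G] [DecidableEq G]

omit [DecidableEq G] in
theorem mbu_chr_mul_conj (l : G → Circle) (w : G → ℤ) : chr l w * conj (chr l w) = 1 := by
  unfold chr
  rw [map_prod, ← Finset.prod_mul_distrib]
  refine Finset.prod_eq_one (fun g _ => ?_)
  rw [map_zpow₀, ← mul_zpow, Complex.mul_conj, Circle.normSq_coe]
  simp

omit [DecidableEq G] in
theorem mbu_chr_conj (l : G → Circle) (w : G → ℤ) : conj (chr l w) = chr l (fun g => - w g) := by
  unfold chr
  rw [map_prod]
  refine Finset.prod_congr rfl (fun g _ => ?_)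
  rw [map_zpow₀, zpow_neg, ← inv_zpow]
  congr 1
  rw [← Circle.coe_inv_eq_conj, Circle.coe_inv]

theorem multi_borsuk_ulam (e : G → G → ℕ) (he : ∀ g, 1 ≤ e g g) (s : G → C(X G, ℂ))
    (hs : ∀ g, HasWt (fun i => (e g i : ℤ)) (s g)) : ∃ x, ∀ g, s g x = 0 := by
  by_contra hcon
  push Not at hcon
  -- the positive function `r`
  let r : C(X G, ℂ) := ∑ g, s g * star (s g)
  have hr : ∀ x, r x = ∑ g, s g x * conj (s g x) := by
    intro x
    simp only [r, ContinuousMap.coe_sum, Finset.sum_apply, ContinuousMap.mul_apply,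
      ContinuousMap.star_apply]
    rfl
  have hr0 : ∀ x, r x ≠ 0 := by
    intro x hx
    obtain ⟨g, hg⟩ := hcon x
    rw [hr x] at hx
    have h1 : ∑ g, Complex.normSq (s g x) = 0 := by
      have h2 : ((∑ g, Complex.normSq (s g x) : ℝ) : ℂ) = 0 := by
        rw [← hx]
        push_cast
        exact Finset.sum_congr rfl (fun g _ => (Complex.mul_conj _).symm)
      exact_mod_cast h2
    have h3 := (Finset.sum_eq_zero_iff_of_nonneg
      (fun g _ => Complex.normSq_nonneg (s g x))).1 h1 g (Finset.mem_univ g)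
    exact hg (Complex.normSq_eq_zero.1 h3)
  have hrw : ∀ l x, r (act l x) = r x := by
    intro l x
    rw [hr, hr]
    refine Finset.sum_congr rfl (fun g _ => ?_)
    rw [hs g l x, map_mul]
    calc _ = (chr l (fun i => (e g i : ℤ)) * conj (chr l (fun i => (e g i : ℤ)))) *
          (s g x * conj (s g x)) := by ring
      _ = _ := by rw [mbu_chr_mul_conj, one_mul]
  let rinv : C(X G, ℂ) := ⟨fun x => (r x)⁻¹, r.continuous.inv₀ hr0⟩
  let s' : G → C(X G, ℂ) := fun g => star (s g) * rinv
  have hs'wt : ∀ g, HasWt (fun i => -(e g i : ℤ)) (s' g) := by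
    intro g l x
    change conj (s g (act l x)) * (r (act l x))⁻¹ = _ * (conj (s g x) * (r x)⁻¹)
    rw [hs g l x, hrw l x, map_mul, mbu_chr_conj]
    ring
  have hsum : ∑ g, s g * s' g = 1 := by
    ext x
    simp only [ContinuousMap.coe_sum, Finset.sum_apply, ContinuousMap.mul_apply,
      ContinuousMap.one_apply]
    have : ∀ g, s g x * s' g x = (s g x * conj (s g x)) * (r x)⁻¹ := by
      intro g
      change s g x * (conj (s g x) * (r x)⁻¹) = _
      ring
    rw [Finset.sum_congr rfl (fun g _ => this g), ← Finset.sum_mul, ← hr x]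
    exact mul_inv_cancel₀ (hr0 x)
  obtain ⟨n, hn⟩ := dim_count e s s' (fun g => asy_of_hasWt _ _ (hs g))
    (fun g => asy_of_hasWt _ _ (hs'wt g)) hsum
  exact alt_sum_ne e he (fun i => (n i : ℤ) + 1) hn

end

end Pool.Agent.Helper9.VI
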