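import Mathlib

/-!
# Definitions for the topological part

`S3` is the unit sphere of `ℂ²`, `X G = G → S3`, weights of functions on `X G` under the torus
`G → Circle`, the probability measure `muX` on `X G`, the `L²` norm `n2` and the spaces `H n` of
multi-homogeneous polynomials.
-/

namespace Pool.Agent.Helper9.VI

open MeasureTheory Filter Topology
open scoped ComplexConjugate

noncomputable section

/-- the unit sphere of `ℂ²` -/
def S3 : Type := {p : ℂ × ℂ // ‖p.1‖ ^ 2 + ‖p.2‖ ^ 2 = 1}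

instance : TopologicalSpace S3 := instTopologicalSpaceSubtype
instance : MetricSpace S3 := Subtype.metricSpace

instance : CompactSpace S3 := by
  have h : IsCompact {p : ℂ × ℂ | ‖p.1‖ ^ 2 + ‖p.2‖ ^ 2 = 1} := by
    apply Metric.isCompact_of_isClosed_isBounded
    · exact isClosed_eq (by fun_prop) continuous_const
    · refine (Metric.isBounded_iff_subset_closedBall 0).2 ⟨1, fun p hp => ?_⟩
      simp only [Set.mem_ofPred_eq] at hp
      rw [mem_closedBall_zero_iff, Prod.norm_def]
      refine max_le ?_ ?_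
      · nlinarith [sq_nonneg ‖p.2‖, norm_nonneg p.1]
      · nlinarith [sq_nonneg ‖p.1‖, norm_nonneg p.2]
  exact isCompact_iff_compactSpace.1 h

instance : MeasurableSpace S3 := borel S3
instance : BorelSpace S3 := ⟨rfl⟩
instance : Nonempty S3 := ⟨⟨(1, 0), by simp⟩⟩

/-- first coordinate (`i = 0`) and second coordinate (`i = 1`) -/
def S3.co (i : Fin 2) (p : S3) : ℂ := if i = 0 then p.1.1 else p.1.2

theorem S3.co_sq (p : S3) : ‖S3.co 0 p‖ ^ 2 + ‖S3.co 1 p‖ ^ 2 = 1 := by
  simpa [S3.co] using p.2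

theorem S3.continuous_co (i : Fin 2) : Continuous (S3.co i) := by
  unfold S3.co
  split_ifs
  · exact continuous_fst.comp continuous_subtype_val
  · exact continuous_snd.comp continuous_subtype_val

/-- the circle acts on `S3` -/
def S3.rot (z : Circle) (p : S3) : S3 :=
  ⟨((z : ℂ) * p.1.1, (z : ℂ) * p.1.2), by
    have := p.2
    simp only [norm_mul, Circle.norm_coe, one_mul]
    exact this⟩

variable (G : Type) [Fintype G] [DecidableEq G]

/-- the product of copies of `S3` -/
abbrev X (G : Type) : Type := G → S3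

variable {G}

/-- the action of the torus -/
def act (l : G → Circle) (x : X G) : X G := fun g => S3.rot (l g) (x g)

/-- the character of weight `w` -/
def chr (l : G → Circle) (w : G → ℤ) : ℂ := ∏ g, ((l g : ℂ)) ^ (w g)

/-- `f` has weight `w` -/
def HasWt (w : G → ℤ) (f : X G → ℂ) : Prop := ∀ l x, f (act l x) = chr l w * f x

/-- the coordinate functions `X G → ℂ` -/
def cx (g : G) (i : Fin 2) : C(X G, ℂ) :=
  ⟨fun x => S3.co i (x g), (S3.continuous_co i).comp (continuous_apply g)⟩

/-- parametrisation of `S3` by `[0,1]^3`: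
`(t, a, b) ↦ (√(1-t) e^{2 π i a}, √t e^{2 π i b})` (`t` clipped to `[0,1]`). -/
def par (q : ℝ × ℝ × ℝ) : S3 :=
  ⟨((Real.sqrt (1 - min 1 (max 0 q.1)) : ℂ) * Complex.exp (2 * Real.pi * Complex.I * q.2.1),
    (Real.sqrt (min 1 (max 0 q.1)) : ℂ) * Complex.exp (2 * Real.pi * Complex.I * q.2.2)), by
    have h0 : 0 ≤ min 1 (max 0 q.1) := le_min zero_le_one (le_max_left _ _)
    have h1 : min 1 (max 0 q.1) ≤ 1 := min_le_left _ _
    have e1 : ∀ y : ℝ, ‖Complex.exp (2 * Real.pi * Complex.I * y)‖ = 1 := by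
      intro y
      rw [show (2 * Real.pi * Complex.I * y : ℂ) = ((2 * Real.pi * y : ℝ) : ℂ) * Complex.I by
        push_cast; ring]
      exact Complex.norm_exp_ofReal_mul_I _
    simp only [norm_mul, e1, mul_one, Complex.norm_real, Real.norm_eq_abs, sq_abs]
    rw [Real.sq_sqrt (by linarith), Real.sq_sqrt h0]
    ring⟩

/-- the rotation invariant probability measure on `S3` -/
def mu : Measure S3 :=
  (volume.restrict (Set.Icc (0 : ℝ) 1 ×ˢ Set.Icc (0 : ℝ) 1 ×ˢ Set.Icc (0 : ℝ) 1)).map par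

/-- the product measure on `X G` -/
def muX : Measure (X G) := Measure.pi (fun _ => mu)

/-- the `L²` norm of a continuous function -/
def n2 (f : C(X G, ℂ)) : ℝ := Real.sqrt (∫ x, ‖f x‖ ^ 2 ∂(muX (G := G)))

/-- the monomial `∏ u_g^(n_g - k_g) w_g^(k_g)` -/
def mono (n k : G → ℕ) : C(X G, ℂ) := ∏ g, (cx g 0 ^ (n g - k g) * cx g 1 ^ (k g))

/-- index set of the monomials of multi-degree `n` -/
abbrev Ix (n : G → ℕ) : Type := ∀ g, Fin (n g + 1)

/-- multi-homogeneous polynomials of multi-degree `n` -/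
def H (n : G → ℕ) : Submodule ℂ C(X G, ℂ) :=
  Submodule.span ℂ (Set.range (fun k : Ix n => mono n (fun g => (k g : ℕ))))

/-- the multi-degree `n + w` (truncated at `0`) -/
def shift (n : G → ℕ) (w : G → ℤ) : G → ℕ := fun g => ((n g : ℤ) + w g).toNat

/-- `f` is asymptotically a multiplier of weight `w` -/
def Asy (w : G → ℤ) (f : C(X G, ℂ)) : Prop :=
  ∀ ε : ℝ, 0 < ε → ∃ N : ℕ, ∀ n : G → ℕ, (∀ g, N ≤ n g) → ∀ h ∈ H n,
    ∃ h' ∈ H (shift n w), n2 (f * h - h') ≤ ε * n2 h

end

end Pool.Agent.Helper9.VI
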