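import Pool.Agent.Helper9.VI.Top.N2

/-!
# VI-T4: the basis of `H n` and the projection onto `H n`

PROOF. `moment_X`: the monomials `mono n k`, `k : Ix n`, are orthogonal with
`n2 (mono n k) ^ 2 = nu n k := ∏ g, (n g - k g)! (k g)! / (n g + 1)! > 0`. So they are linearly independent,
`finrank (H n) = card (Ix n) = ∏ (n g + 1)`, and `n2` is positive definite on `H n` (`n2_sum_sq`).
`proj n f = ∑ k, (ip (mono n k) f / nu n k) • mono n k` is the orthogonal projection: `f - proj n f` is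
orthogonal to `H n`, Pythagoras.
-/

namespace Pool.Agent.Helper9.VI

open MeasureTheory Filter Topology
open scoped ComplexConjugate Nat

noncomputable section

variable {G : Type} [Fintype G] [DecidableEq G]

theorem ip_mono (n : G → ℕ) (k l : Ix n) :
    ip (mono n (fun g => (k g : ℕ))) (mono n (fun g => (l g : ℕ))) = if k = l then
      ((∏ g, (((n g - k g)! * (k g : ℕ)! : ℕ) : ℝ) / ((n g + 1)! : ℕ) : ℝ) : ℂ) else 0 := by
  have hval : ∀ (m : G → ℕ) (x : X G),
      mono n m x = ∏ g, (cx g 0 x ^ (n g - m g) * cx g 1 x ^ (m g)) := by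
    intro m x
    simp only [mono, ContinuousMap.coe_prod, Finset.prod_apply, ContinuousMap.mul_apply,
      ContinuousMap.pow_apply]
  have h1 : ip (mono n (fun g => (k g : ℕ))) (mono n (fun g => (l g : ℕ))) =
      ∫ x, (∏ g, (cx g 0 x ^ (n g - (l g : ℕ)) * cx g 1 x ^ (l g : ℕ))) *
        conj (∏ g, (cx g 0 x ^ (n g - (k g : ℕ)) * cx g 1 x ^ (k g : ℕ))) ∂(muX (G := G)) := by
    unfold ip
    refine integral_congr_ae (Filter.Eventually.of_forall fun x => ?_)
    simp only [hval]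
    rw [mul_comm]
  rw [h1, moment_X (fun g => n g - (l g : ℕ)) (fun g => (l g : ℕ)) (fun g => n g - (k g : ℕ))
    (fun g => (k g : ℕ))]
  by_cases hkl : k = l
  · subst hkl
    rw [if_pos rfl, Complex.ofReal_prod]
    refine Finset.prod_congr rfl fun g _ => ?_
    have hg : n g - (k g : ℕ) + (k g : ℕ) + 1 = n g + 1 := by
      have := (k g).2
      omega
    simp only [and_self, if_true, hg]
    push_cast
    rfl
  · rw [if_neg hkl]
    obtain ⟨g, hg⟩ := Function.ne_iff.1 hkl
    refine Finset.prod_eq_zero (Finset.mem_univ g) ?_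
    rw [if_neg]
    intro hh
    exact hg (Fin.ext hh.2.symm)

theorem exists_coeff (n : G → ℕ) {h : C(X G, ℂ)} (hh : h ∈ H n) :
    ∃ a : Ix n → ℂ, h = ∑ k, a k • mono n (fun g => (k g : ℕ)) := by
  obtain ⟨a, ha⟩ := (Submodule.mem_span_range_iff_exists_fun ℂ).1 hh
  exact ⟨a, ha.symm⟩

/-- the squared norms of the monomials -/
def nuB (n : G → ℕ) (k : Ix n) : ℝ :=
  ∏ g, (((n g - k g)! * (k g : ℕ)! : ℕ) : ℝ) / ((n g + 1)! : ℕ)

theorem nuB_pos (n : G → ℕ) (k : Ix n) : 0 < nuB n k := by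
  unfold nuB
  refine Finset.prod_pos fun g _ => ?_
  have h1 : 0 < (n g - (k g : ℕ))! * (k g : ℕ)! := Nat.mul_pos (Nat.factorial_pos _) (Nat.factorial_pos _)
  have h2 : 0 < (n g + 1)! := Nat.factorial_pos _
  positivity

theorem ip_mono' (n : G → ℕ) (k l : Ix n) :
    ip (mono n (fun g => (k g : ℕ))) (mono n (fun g => (l g : ℕ))) =
      if k = l then (nuB n k : ℂ) else 0 := ip_mono n k l

theorem integrableB (f : C(X G, ℂ)) : Integrable f (muX (G := G)) :=
  f.continuous.integrable_of_hasCompactSupport (HasCompactSupport.of_compactSpace _)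

/-- the scalar product as a linear functional of the second variable -/
def ipL (f : C(X G, ℂ)) : C(X G, ℂ) →ₗ[ℂ] ℂ where
  toFun := ip f
  map_add' g h := by
    unfold ip
    rw [← integral_add]
    · refine integral_congr_ae (Filter.Eventually.of_forall fun x => ?_)
      simp only [ContinuousMap.add_apply]
      ring
    · exact integrableB ((star f) * g)
    · exact integrableB ((star f) * h)
  map_smul' c g := by
    simp only [RingHom.id_apply, smul_eq_mul]
    unfold ip
    rw [← integral_const_mul]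
    refine integral_congr_ae (Filter.Eventually.of_forall fun x => ?_)
    simp only [ContinuousMap.smul_apply, smul_eq_mul]
    ring

theorem ipL_apply (f g : C(X G, ℂ)) : ipL f g = ip f g := rfl

theorem ip_conjB (f g : C(X G, ℂ)) : ip f g = conj (ip g f) := by
  unfold ip
  rw [← integral_conj]
  refine integral_congr_ae (Filter.Eventually.of_forall fun x => ?_)
  simp only [map_mul, Complex.conj_conj]
  ring

theorem ip_mono_sum (n : G → ℕ) (a : Ix n → ℂ) (l : Ix n) :
    ip (mono n (fun g => (l g : ℕ))) (∑ k, a k • mono n (fun g => (k g : ℕ))) =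
      a l * nuB n l := by
  rw [← ipL_apply, map_sum, Finset.sum_eq_single l]
  · rw [map_smul, ipL_apply, ip_mono', if_pos rfl, smul_eq_mul]
  · intro k _ hk
    rw [map_smul, ipL_apply, ip_mono', if_neg (Ne.symm hk), smul_zero]
  · intro hl
    exact absurd (Finset.mem_univ l) hl

theorem linIndB (n : G → ℕ) :
    LinearIndependent ℂ (fun k : Ix n => mono n (fun g => (k g : ℕ))) := by
  rw [Fintype.linearIndependent_iff]
  intro a ha l
  have h1 := ip_mono_sum n a l
  rw [ha, ← ipL_apply, map_zero] at h1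
  have h2 : (nuB n l : ℂ) ≠ 0 := Complex.ofReal_ne_zero.2 (nuB_pos n l).ne'
  rcases mul_eq_zero.1 h1.symm with h | h
  · exact h
  · exact absurd h h2

theorem finrank_H (n : G → ℕ) : Module.finrank ℂ (H n) = ∏ g, (n g + 1) := by
  unfold H
  rw [finrank_span_eq_card (linIndB n), Fintype.card_pi]
  simp only [Fintype.card_fin]

instance finite_H (n : G → ℕ) : Module.Finite ℂ (H n) :=
  FiniteDimensional.span_of_finite ℂ (Set.finite_range _)

theorem ip_smul_smul (c d : ℂ) (f g : C(X G, ℂ)) : ip (c • f) (d • g) = conj c * d * ip f g := by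
  unfold ip
  rw [← integral_const_mul]
  refine integral_congr_ae (Filter.Eventually.of_forall fun x => ?_)
  simp only [ContinuousMap.smul_apply, smul_eq_mul, map_mul]
  ring

theorem n2_mono_sq (n : G → ℕ) (k : Ix n) : n2 (mono n (fun g => (k g : ℕ))) ^ 2 = nuB n k := by
  have h := ip_self (mono n (fun g => (k g : ℕ)))
  rw [ip_mono', if_pos rfl] at h
  exact (Complex.ofReal_injective h).symm

theorem n2_eq_zero (n : G → ℕ) {h : C(X G, ℂ)} (hh : h ∈ H n) (h0 : n2 h = 0) : h = 0 := by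
  obtain ⟨a, ha⟩ := exists_coeff n hh
  have h1 : n2 h ^ 2 = ∑ k, n2 (a k • mono n (fun g => (k g : ℕ))) ^ 2 := by
    rw [ha]
    refine n2_sum_sq Finset.univ _ fun k _ l _ hkl => ?_
    rw [ip_smul_smul, ip_mono', if_neg hkl, mul_zero]
  rw [h0] at h1
  have h2 : ∀ k, n2 (a k • mono n (fun g => (k g : ℕ))) ^ 2 = 0 := by
    have h3 : ∑ k, n2 (a k • mono n (fun g => (k g : ℕ))) ^ 2 = 0 := by
      rw [← h1]; norm_num
    intro k
    exact (Finset.sum_eq_zero_iff_of_nonneg fun k _ => sq_nonneg _).1 h3 k (Finset.mem_univ k)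
  rw [ha]
  refine Finset.sum_eq_zero fun k _ => ?_
  have h4 := h2 k
  rw [n2_smul, mul_pow, n2_mono_sq] at h4
  have h5 : ‖a k‖ = 0 := by
    rcases mul_eq_zero.1 h4 with h | h
    · exact pow_eq_zero_iff (two_ne_zero) |>.1 h
    · exact absurd h (nuB_pos n k).ne'
  rw [norm_eq_zero.1 h5, zero_smul]

/-- the orthogonal projection -/
def projB (n : G → ℕ) : C(X G, ℂ) →ₗ[ℂ] C(X G, ℂ) :=
  ∑ k : Ix n, (((nuB n k : ℂ))⁻¹ • ipL (mono n (fun g => (k g : ℕ)))).smulRight
    (mono n (fun g => (k g : ℕ)))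

theorem projB_apply (n : G → ℕ) (f : C(X G, ℂ)) :
    projB n f = ∑ k : Ix n, (((nuB n k : ℂ))⁻¹ * ip (mono n (fun g => (k g : ℕ))) f) •
      mono n (fun g => (k g : ℕ)) := by
  simp only [projB, LinearMap.sum_apply, LinearMap.smulRight_apply, LinearMap.smul_apply,
    smul_eq_mul, ipL_apply]

theorem orthB (n : G → ℕ) {g h : C(X G, ℂ)}
    (hg : ∀ k : Ix n, ip (mono n (fun g => (k g : ℕ))) g = 0) (hh : h ∈ H n) :
    ip g h = 0 ∧ ip h g = 0 := by
  obtain ⟨a, rfl⟩ := exists_coeff n hh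
  have h1 : ip g (∑ k, a k • mono n (fun g => (k g : ℕ))) = 0 := by
    rw [← ipL_apply, map_sum]
    refine Finset.sum_eq_zero fun k _ => ?_
    rw [map_smul, ipL_apply, ip_conjB, hg k, map_zero, smul_zero]
  exact ⟨h1, by rw [ip_conjB, h1, map_zero]⟩

theorem pythB {g h : C(X G, ℂ)} (h1 : ip g h = 0) (h2 : ip h g = 0) :
    n2 (g + h) ^ 2 = n2 g ^ 2 + n2 h ^ 2 := by
  have := n2_sum_sq (G := G) (Finset.univ : Finset Bool) (fun b => if b then g else h)
    (by
      intro i _ j _ hij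
      cases i <;> cases j <;> simp_all)
  simpa using this

theorem exists_proj (n : G → ℕ) : ∃ P : C(X G, ℂ) →ₗ[ℂ] C(X G, ℂ),
    (∀ f, P f ∈ H n) ∧ (∀ h ∈ H n, P h = h) ∧ (∀ f, n2 (P f) ≤ n2 f) ∧
      ∀ f, ∀ h ∈ H n, n2 (f - P f) ≤ n2 (f - h) := by
  have hmem : ∀ f, projB n f ∈ H n := by
    intro f
    rw [projB_apply]
    refine Submodule.sum_mem _ fun k _ => Submodule.smul_mem _ _ ?_
    exact Submodule.subset_span ⟨k, rfl⟩
  have hort : ∀ f, ∀ k : Ix n, ip (mono n (fun g => (k g : ℕ))) (f - projB n f) = 0 := by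
    intro f k
    rw [← ipL_apply, map_sub, ipL_apply, ipL_apply, projB_apply, ip_mono_sum]
    have h2 : (nuB n k : ℂ) ≠ 0 := Complex.ofReal_ne_zero.2 (nuB_pos n k).ne'
    field_simp
    ring
  refine ⟨projB n, hmem, ?_, ?_, ?_⟩
  · intro h hh
    obtain ⟨a, rfl⟩ := exists_coeff n hh
    rw [projB_apply]
    refine Finset.sum_congr rfl fun k _ => ?_
    rw [ip_mono_sum]
    have h2 : (nuB n k : ℂ) ≠ 0 := Complex.ofReal_ne_zero.2 (nuB_pos n k).ne'
    congr 1
    field_simp
  · intro f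
    obtain ⟨h1, h2⟩ := orthB n (hort f) (hmem f)
    have h3 := pythB h1 h2
    rw [sub_add_cancel] at h3
    have h4 : n2 (projB n f) ^ 2 ≤ n2 f ^ 2 := by
      rw [h3]; nlinarith [sq_nonneg (n2 (f - projB n f))]
    exact (pow_le_pow_iff_left₀ (n2_nonneg _) (n2_nonneg _) two_ne_zero).1 h4
  · intro f h hh
    obtain ⟨h1, h2⟩ := orthB n (hort f) (Submodule.sub_mem _ (hmem f) hh)
    have h3 := pythB h1 h2
    rw [sub_add_sub_cancel] at h3
    have h4 : n2 (f - projB n f) ^ 2 ≤ n2 (f - h) ^ 2 := by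
      rw [h3]; nlinarith [sq_nonneg (n2 (projB n f - h))]
    exact (pow_le_pow_iff_left₀ (n2_nonneg _) (n2_nonneg _) two_ne_zero).1 h4

end

end Pool.Agent.Helper9.VI
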