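import Pool.Agent.Helper9.VI.Top.N2

/-!
# VI-T6: closure properties of asymptotic multipliers

PROOF. `Asy_mul`: `f₂ h ≈ h'` (error `ε₂ n2 h`, `n2 h' ≤ (‖f₂‖ + ε₂) n2 h`), `f₁ h' ≈ h''` (error `ε₁ n2 h'`),
`f₁ f₂ h - h'' = f₁ (f₂ h - h') + (f₁ h' - h'')`, `n2_mul_le`; `shift (shift n w₂) w₁ = shift n (w₁ + w₂)` when all
`n g` are large (no truncation). The others are direct.
-/

namespace Pool.Agent.Helper9.VI

open MeasureTheory Filter Topology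
open scoped ComplexConjugate Nat

noncomputable section

variable {G : Type} [Fintype G] [DecidableEq G]

omit [Fintype G] [DecidableEq G] in
theorem shift_zero_clos (n : G → ℕ) : shift n (0 : G → ℤ) = n := by
  funext g
  simp [shift]

omit [Fintype G] [DecidableEq G] in
theorem shift_shift_clos (n : G → ℕ) (w₁ w₂ : G → ℤ) (h : ∀ g, 0 ≤ (n g : ℤ) + w₂ g) :
    shift (shift n w₂) w₁ = shift n (w₁ + w₂) := by
  funext g
  have := h g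
  simp only [shift, Pi.add_apply]
  rw [Int.toNat_of_nonneg this]
  congr 1
  ring

theorem Asy_const (c : ℂ) : Asy (G := G) 0 (ContinuousMap.const _ c) := by
  intro ε hε
  refine ⟨0, fun n _ h hh => ⟨c • h, ?_, ?_⟩⟩
  · rw [shift_zero_clos]
    exact (H n).smul_mem c hh
  · have e : ContinuousMap.const (X G) c * h - c • h = 0 := by
      ext x
      simp
    rw [e, n2_zero]
    exact mul_nonneg hε.le (n2_nonneg h)

theorem Asy_add {w : G → ℤ} {f₁ f₂ : C(X G, ℂ)} (h₁ : Asy w f₁) (h₂ : Asy w f₂) :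
    Asy w (f₁ + f₂) := by
  intro ε hε
  obtain ⟨N₁, hN₁⟩ := h₁ (ε / 2) (by linarith)
  obtain ⟨N₂, hN₂⟩ := h₂ (ε / 2) (by linarith)
  refine ⟨max N₁ N₂, fun n hn h hh => ?_⟩
  obtain ⟨a, ha, ha'⟩ := hN₁ n (fun g => le_trans (le_max_left _ _) (hn g)) h hh
  obtain ⟨b, hb, hb'⟩ := hN₂ n (fun g => le_trans (le_max_right _ _) (hn g)) h hh
  refine ⟨a + b, (H _).add_mem ha hb, ?_⟩
  have e : (f₁ + f₂) * h - (a + b) = (f₁ * h - a) + (f₂ * h - b) := by ring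
  rw [e]
  have := n2_add_le (f₁ * h - a) (f₂ * h - b)
  linarith

theorem Asy_zero (w : G → ℤ) : Asy w (0 : C(X G, ℂ)) := by
  intro ε hε
  refine ⟨0, fun n _ h hh => ⟨0, (H _).zero_mem, ?_⟩⟩
  have e : (0 : C(X G, ℂ)) * h - 0 = 0 := by ring
  rw [e, n2_zero]
  exact mul_nonneg hε.le (n2_nonneg h)

theorem Asy_smul {w : G → ℤ} {f : C(X G, ℂ)} (h : Asy w f) (c : ℂ) : Asy w (c • f) := by
  intro ε hε
  have hc : 0 < ‖c‖ + 1 := by positivity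
  obtain ⟨N, hN⟩ := h (ε / (‖c‖ + 1)) (by positivity)
  refine ⟨N, fun n hn k hk => ?_⟩
  obtain ⟨a, ha, ha'⟩ := hN n hn k hk
  refine ⟨c • a, (H _).smul_mem c ha, ?_⟩
  have e : (c • f) * k - c • a = c • (f * k - a) := by
    rw [smul_mul_assoc, smul_sub]
  rw [e, n2_smul]
  have h1 : ‖c‖ * n2 (f * k - a) ≤ ‖c‖ * (ε / (‖c‖ + 1) * n2 k) :=
    mul_le_mul_of_nonneg_left ha' (norm_nonneg c)
  have h2 : ‖c‖ * (ε / (‖c‖ + 1)) ≤ ε := by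
    rw [mul_div_assoc', div_le_iff₀ hc]
    nlinarith
  calc ‖c‖ * n2 (f * k - a) ≤ ‖c‖ * (ε / (‖c‖ + 1) * n2 k) := h1
    _ = (‖c‖ * (ε / (‖c‖ + 1))) * n2 k := by ring
    _ ≤ ε * n2 k := mul_le_mul_of_nonneg_right h2 (n2_nonneg k)

theorem Asy_mul {w₁ w₂ : G → ℤ} {f₁ f₂ : C(X G, ℂ)} (h₁ : Asy w₁ f₁) (h₂ : Asy w₂ f₂) :
    Asy (w₁ + w₂) (f₁ * f₂) := by
  intro ε hε
  have hc : 0 < 2 * (‖f₁‖ + 1) := by positivity
  obtain ⟨ε₂, hε₂, hε₂'⟩ : ∃ ε₂ : ℝ, 0 < ε₂ ∧ ‖f₁‖ * ε₂ ≤ ε / 2 := by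
    refine ⟨ε / (2 * (‖f₁‖ + 1)), by positivity, ?_⟩
    rw [mul_div_assoc', div_le_div_iff₀ hc (by norm_num)]
    nlinarith [norm_nonneg f₁]
  have hc' : 0 < 2 * (‖f₂‖ + ε₂ + 1) := by positivity
  obtain ⟨ε₁, hε₁, hε₁'⟩ : ∃ ε₁ : ℝ, 0 < ε₁ ∧ ε₁ * (‖f₂‖ + ε₂) ≤ ε / 2 := by
    refine ⟨ε / (2 * (‖f₂‖ + ε₂ + 1)), by positivity, ?_⟩
    rw [div_mul_eq_mul_div, div_le_div_iff₀ hc' (by norm_num)]
    nlinarith [norm_nonneg f₂]
  obtain ⟨N₁, hN₁⟩ := h₁ ε₁ hε₁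
  obtain ⟨N₂, hN₂⟩ := h₂ ε₂ hε₂
  refine ⟨max N₂ (N₁ + ∑ g, (w₂ g).natAbs), fun n hn h hh => ?_⟩
  have hbig : ∀ g, N₁ + (w₂ g).natAbs ≤ n g := fun g => by
    have h0 := le_trans (le_max_right _ _) (hn g)
    have h1 : (w₂ g).natAbs ≤ ∑ g, (w₂ g).natAbs :=
      Finset.single_le_sum (f := fun g => (w₂ g).natAbs) (fun _ _ => Nat.zero_le _)
        (Finset.mem_univ g)
    omega
  have hnn : ∀ g, 0 ≤ (n g : ℤ) + w₂ g := fun g => by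
    have := hbig g
    omega
  obtain ⟨a, ha, ha'⟩ := hN₂ n (fun g => le_trans (le_max_left _ _) (hn g)) h hh
  obtain ⟨b, hb, hb'⟩ := hN₁ (shift n w₂) (fun g => by
    have := hbig g
    simp only [shift]
    omega) a ha
  rw [shift_shift_clos n w₁ w₂ hnn] at hb
  refine ⟨b, hb, ?_⟩
  have e : f₁ * f₂ * h - b = f₁ * (f₂ * h - a) + (f₁ * a - b) := by ring
  have ea : a = f₂ * h - (f₂ * h - a) := by ring
  have hna : n2 a ≤ (‖f₂‖ + ε₂) * n2 h := by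
    have h1 := n2_sub_le (f₂ * h) (f₂ * h - a)
    rw [← ea] at h1
    have h2 := n2_mul_le f₂ h
    nlinarith
  have k1 : n2 (f₁ * (f₂ * h - a)) ≤ ε / 2 * n2 h := by
    calc n2 (f₁ * (f₂ * h - a)) ≤ ‖f₁‖ * n2 (f₂ * h - a) := n2_mul_le _ _
      _ ≤ ‖f₁‖ * (ε₂ * n2 h) := mul_le_mul_of_nonneg_left ha' (norm_nonneg _)
      _ = (‖f₁‖ * ε₂) * n2 h := by ring
      _ ≤ ε / 2 * n2 h := mul_le_mul_of_nonneg_right hε₂' (n2_nonneg h)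
  have k2 : n2 (f₁ * a - b) ≤ ε / 2 * n2 h := by
    calc n2 (f₁ * a - b) ≤ ε₁ * n2 a := hb'
      _ ≤ ε₁ * ((‖f₂‖ + ε₂) * n2 h) := mul_le_mul_of_nonneg_left hna hε₁.le
      _ = (ε₁ * (‖f₂‖ + ε₂)) * n2 h := by ring
      _ ≤ ε / 2 * n2 h := mul_le_mul_of_nonneg_right hε₁' (n2_nonneg h)
  rw [e]
  have := n2_add_le (f₁ * (f₂ * h - a)) (f₁ * a - b)
  linarith

theorem Asy_of_approx {w : G → ℤ} {f : C(X G, ℂ)}
    (h : ∀ ε : ℝ, 0 < ε → ∃ f', Asy w f' ∧ ‖f - f'‖ ≤ ε) : Asy w f := by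
  intro ε hε
  obtain ⟨f', hf', hd⟩ := h (ε / 2) (by linarith)
  obtain ⟨N, hN⟩ := hf' (ε / 2) (by linarith)
  refine ⟨N, fun n hn k hk => ?_⟩
  obtain ⟨a, ha, ha'⟩ := hN n hn k hk
  refine ⟨a, ha, ?_⟩
  have e : f * k - a = (f - f') * k + (f' * k - a) := by ring
  rw [e]
  have h1 := n2_add_le ((f - f') * k) (f' * k - a)
  have h2 := n2_mul_le (f - f') k
  have h3 : ‖f - f'‖ * n2 k ≤ ε / 2 * n2 k := mul_le_mul_of_nonneg_right hd (n2_nonneg k)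
  linarith

end

end Pool.Agent.Helper9.VI
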