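import Pool.Agent.Helper9.VI.Top.Basis

/-!
# VI-T5: the coordinates and their conjugates are asymptotic multipliers

PROOF. `cx g i * mono n k` is again a monomial of degree `n + 1_g`: `Asy` with error `0`.
Conjugates: for `i = 0` (the case `i = 1` is symmetric), `h = ∑ a_k mono n k`, put
`h' = ∑_{k g < n g} a_k ((n g - k g)/(n g + 1)) mono (n - 1_g) k`. The residuals
`rho_k = conj (cx g 0) * mono n k - ((n g - k g)/(n g + 1)) mono (n - 1_g) k` (second term absent if
`k g = n g`) are pairwise orthogonal (`moment_X`: different exponents) and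
`n2 rho_k ^ 2 = ((k g + 1)/((n g + 1)(n g + 2))) n2 (mono n k) ^ 2 ≤ n2 (mono n k)^2 / (n g + 2)`
(with `A = n g - k g`, `B = k g`: `(A+1)/(n+2) - A/(n+1) = (B+1)/((n+1)(n+2))`; by `moment_X`
`ip (conj u m) (conj u m) = ∫ |u|²|m|²`). So `n2 (conj (cx g 0) * h - h') ≤ n2 h / √(n g + 2)`.
-/

namespace Pool.Agent.Helper9.VI

open MeasureTheory Filter Topology
open scoped ComplexConjugate Nat

noncomputable section

variable {G : Type} [Fintype G] [DecidableEq G]

namespace T5

/-! ### Monomials with arbitrary exponents -/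

/-- the monomial with exponents `e` -/
def Mn (e : G → Fin 2 → ℕ) : C(X G, ℂ) := ∏ g, (cx g 0 ^ (e g 0) * cx g 1 ^ (e g 1))

/-- its squared norm -/
def nuM (e : G → Fin 2 → ℕ) : ℝ :=
  ∏ g, (((e g 0)! * (e g 1)! : ℕ) : ℝ) / ((e g 0 + e g 1 + 1)! : ℕ)

/-- raise one exponent -/
def up (g : G) (i : Fin 2) (e : G → Fin 2 → ℕ) : G → Fin 2 → ℕ :=
  fun g' i' => if g' = g ∧ i' = i then e g' i' + 1 else e g' i'

/-- lower one exponent -/
def down (g : G) (i : Fin 2) (e : G → Fin 2 → ℕ) : G → Fin 2 → ℕ :=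
  fun g' i' => if g' = g ∧ i' = i then e g' i' - 1 else e g' i'

omit [Fintype G] in
theorem up_down (g : G) (i : Fin 2) (e : G → Fin 2 → ℕ) (h : e g i ≠ 0) :
    up g i (down g i e) = e := by
  funext g' i'
  unfold up down
  split_ifs with h1
  · obtain ⟨rfl, rfl⟩ := h1
    omega
  · rfl

omit [Fintype G] in
theorem up_inj (g : G) (i : Fin 2) {e f : G → Fin 2 → ℕ} (h : up g i e = up g i f) : e = f := by
  funext g' i'
  have h1 := congrFun (congrFun h g') i'
  unfold up at h1
  split_ifs at h1 with h2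
  · omega
  · exact h1

omit [Fintype G] in
theorem up_sum (g : G) (i : Fin 2) (e : G → Fin 2 → ℕ) :
    up g i e g 0 + up g i e g 1 = e g 0 + e g 1 + 1 := by
  fin_cases i
  · simp [up]
    omega
  · simp [up]
    omega

omit [Fintype G] in
theorem up_ne (g : G) (i : Fin 2) (e : G → Fin 2 → ℕ) {g' : G} (h : g' ≠ g) (i' : Fin 2) :
    up g i e g' i' = e g' i' := by
  simp [up, h]

omit [Fintype G] in
theorem down_sum (g : G) (i : Fin 2) (e : G → Fin 2 → ℕ) (h0 : e g i ≠ 0) :
    down g i e g 0 + down g i e g 1 + 1 = e g 0 + e g 1 := by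
  fin_cases i
  · simp only [Fin.zero_eta] at h0 ⊢
    simp [down]
    omega
  · simp only [Fin.mk_one] at h0 ⊢
    simp [down]
    omega

omit [Fintype G] in
theorem down_ne (g : G) (i : Fin 2) (e : G → Fin 2 → ℕ) {g' : G} (h : g' ≠ g) (i' : Fin 2) :
    down g i e g' i' = e g' i' := by
  simp [down, h]

theorem cx_mul_Mn (g : G) (i : Fin 2) (e : G → Fin 2 → ℕ) :
    cx g i * Mn e = Mn (up g i e) := by
  unfold Mn
  rw [← Finset.mul_prod_erase Finset.univ _ (Finset.mem_univ g),
    ← Finset.mul_prod_erase Finset.univ _ (Finset.mem_univ g), ← mul_assoc]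
  congr 1
  · fin_cases i
    · simp [up, pow_succ]
      ring
    · simp [up, pow_succ]
      ring
  · refine Finset.prod_congr rfl fun g' hg' => ?_
    have hne : g' ≠ g := Finset.ne_of_mem_erase hg'
    simp [up, hne]

theorem nuM_up (g : G) (i : Fin 2) (e : G → Fin 2 → ℕ) :
    nuM (up g i e) = nuM e * (((e g i : ℝ) + 1) / ((e g 0 : ℝ) + e g 1 + 2)) := by
  unfold nuM
  rw [← Finset.mul_prod_erase Finset.univ _ (Finset.mem_univ g),
    ← Finset.mul_prod_erase Finset.univ
      (fun g => (((e g 0)! * (e g 1)! : ℕ) : ℝ) / ((e g 0 + e g 1 + 1)! : ℕ)) (Finset.mem_univ g)]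
  have h1 : ∏ x ∈ Finset.univ.erase g, ((((up g i e x 0)! * (up g i e x 1)! : ℕ) : ℝ) /
      ((up g i e x 0 + up g i e x 1 + 1)! : ℕ)) =
      ∏ x ∈ Finset.univ.erase g, ((((e x 0)! * (e x 1)! : ℕ) : ℝ) /
      ((e x 0 + e x 1 + 1)! : ℕ)) := by
    refine Finset.prod_congr rfl fun g' hg' => ?_
    have hne : g' ≠ g := Finset.ne_of_mem_erase hg'
    simp [up, hne]
  rw [h1]
  have hf : ((e g 0 + e g 1 + 1)! : ℝ) ≠ 0 := by exact_mod_cast Nat.factorial_ne_zero _
  have h2 : ((e g 0 : ℝ) + e g 1 + 2) ≠ 0 := by positivity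
  have h3 : ((((up g i e g 0)! * (up g i e g 1)! : ℕ) : ℝ) /
      ((up g i e g 0 + up g i e g 1 + 1)! : ℕ)) =
      ((((e g 0)! * (e g 1)! : ℕ) : ℝ) / ((e g 0 + e g 1 + 1)! : ℕ)) *
        (((e g i : ℝ) + 1) / ((e g 0 : ℝ) + e g 1 + 2)) := by
    fin_cases i
    · have e1 : (up g 0 e g 0) = e g 0 + 1 := by simp [up]
      have e2 : (up g 0 e g 1) = e g 1 := by simp [up]
      simp only [Fin.zero_eta, e1, e2]
      rw [show e g 0 + 1 + e g 1 + 1 = (e g 0 + e g 1 + 1) + 1 by ring,
        Nat.factorial_succ (e g 0 + e g 1 + 1), Nat.factorial_succ (e g 0)]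
      push_cast
      field_simp
      ring
    · have e1 : (up g 1 e g 0) = e g 0 := by simp [up]
      have e2 : (up g 1 e g 1) = e g 1 + 1 := by simp [up]
      simp only [Fin.mk_one, e1, e2]
      rw [show e g 0 + (e g 1 + 1) + 1 = (e g 0 + e g 1 + 1) + 1 by ring,
        Nat.factorial_succ (e g 0 + e g 1 + 1), Nat.factorial_succ (e g 1)]
      push_cast
      field_simp
      ring
  rw [h3]
  ring

omit [DecidableEq G] in
theorem nuM_nonneg (e : G → Fin 2 → ℕ) : 0 ≤ nuM e :=
  Finset.prod_nonneg fun _ _ => by positivity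

theorem ip_Mn (e f : G → Fin 2 → ℕ) : ip (Mn e) (Mn f) = if e = f then (nuM f : ℂ) else 0 := by
  have h := moment_X (fun g => f g 0) (fun g => f g 1) (fun g => e g 0) (fun g => e g 1)
  have h1 : ip (Mn e) (Mn f) = ∫ x, (∏ g, (cx g 0 x ^ f g 0 * cx g 1 x ^ f g 1)) *
        conj (∏ g, (cx g 0 x ^ e g 0 * cx g 1 x ^ e g 1)) ∂(muX (G := G)) := by
    unfold ip Mn
    congr 1
    funext x
    simp only [ContinuousMap.coe_prod, Finset.prod_apply, ContinuousMap.coe_mul,
      Pi.mul_apply, ContinuousMap.coe_pow, Pi.pow_apply]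
    ring
  rw [h1, h, Finset.prod_ite_zero]
  by_cases hef : e = f
  · subst hef
    simp [nuM]
  · rw [if_neg hef, if_neg]
    intro h2
    apply hef
    funext g i
    have h3 := h2 g (Finset.mem_univ g)
    fin_cases i
    · exact h3.1.symm
    · exact h3.2.symm

/-! ### Linearity of the scalar product -/

omit [DecidableEq G] in
theorem ip_integrable (f g : C(X G, ℂ)) :
    Integrable (fun x => conj (f x) * g x) (muX (G := G)) := by
  have h := (star f * g).continuous.integrable_of_hasCompactSupport (μ := muX (G := G))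
    (HasCompactSupport.of_compactSpace _)
  exact h

omit [DecidableEq G] in
theorem ip_sub_right (f g h : C(X G, ℂ)) : ip f (g - h) = ip f g - ip f h := by
  unfold ip
  rw [← integral_sub (ip_integrable f g) (ip_integrable f h)]
  congr 1
  funext x
  simp only [ContinuousMap.coe_sub, Pi.sub_apply]
  ring

omit [DecidableEq G] in
theorem ip_smul_right (c : ℂ) (f g : C(X G, ℂ)) : ip f (c • g) = c * ip f g := by
  unfold ip
  rw [← integral_const_mul]
  congr 1
  funext x
  simp only [ContinuousMap.coe_smul, Pi.smul_apply, smul_eq_mul]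
  ring

omit [DecidableEq G] in
theorem ip_conj (f g : C(X G, ℂ)) : ip f g = conj (ip g f) := by
  unfold ip
  rw [← integral_conj]
  congr 1
  funext x
  simp only [map_mul, Complex.conj_conj]
  ring

theorem ip_sub_left (f g h : C(X G, ℂ)) : ip (f - g) h = ip f h - ip g h := by
  rw [ip_conj, ip_sub_right, map_sub, ← ip_conj, ← ip_conj]

omit [DecidableEq G] in
theorem ip_smul_left (c : ℂ) (f g : C(X G, ℂ)) : ip (c • f) g = conj c * ip f g := by
  rw [ip_conj, ip_smul_right, map_mul, ← ip_conj]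

omit [DecidableEq G] in
theorem ip_star_mul_left (u f g : C(X G, ℂ)) : ip (star u * f) g = ip f (u * g) := by
  unfold ip
  congr 1
  funext x
  simp only [ContinuousMap.coe_mul, Pi.mul_apply, ContinuousMap.star_apply, map_mul,
    Complex.star_def, Complex.conj_conj]
  ring

omit [DecidableEq G] in
theorem ip_star_mul_star_mul (u f g : C(X G, ℂ)) :
    ip (star u * f) (star u * g) = ip (u * f) (u * g) := by
  unfold ip
  congr 1
  funext x
  simp only [ContinuousMap.coe_mul, Pi.mul_apply, ContinuousMap.star_apply, map_mul,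
    Complex.star_def, Complex.conj_conj]
  ring

omit [DecidableEq G] in
theorem ip_star_mul_right (u f g : C(X G, ℂ)) : ip f (star u * g) = ip (u * f) g := by
  rw [ip_conj, ip_star_mul_left, ← ip_conj]

/-! ### The residuals -/

/-- the coefficient of the projection of `conj (cx g i) * Mn e` -/
def cf (g : G) (i : Fin 2) (e : G → Fin 2 → ℕ) : ℝ := (e g i : ℝ) / ((e g 0 : ℝ) + e g 1 + 1)

/-- the residual -/
def rho (g : G) (i : Fin 2) (e : G → Fin 2 → ℕ) : C(X G, ℂ) :=
  star (cx g i) * Mn e - (cf g i e : ℂ) • Mn (down g i e)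

theorem cross (g : G) (i : Fin 2) (e f : G → Fin 2 → ℕ) :
    (cf g i f : ℂ) * ip (star (cx g i) * Mn e) (Mn (down g i f)) =
      (cf g i f : ℂ) * (if e = f then (nuM f : ℂ) else 0) := by
  by_cases hf : f g i = 0
  · have h1 : cf g i f = 0 := by simp [cf, hf]
    rw [h1]
    simp
  · rw [ip_star_mul_left, cx_mul_Mn, up_down g i f hf, ip_Mn]

theorem ip_rho (g : G) (i : Fin 2) (e f : G → Fin 2 → ℕ) :
    ip (rho g i e) (rho g i f) = if e = f then ((nuM f *
      (((f g i : ℝ) + 1) / ((f g 0 : ℝ) + f g 1 + 2) - (f g i : ℝ) / ((f g 0 : ℝ) + f g 1 + 1)) :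
        ℝ) : ℂ) else 0 := by
  have h1 : ip (rho g i e) (rho g i f) =
      ip (Mn (up g i e)) (Mn (up g i f)) -
      (cf g i f : ℂ) * ip (star (cx g i) * Mn e) (Mn (down g i f)) -
      conj ((cf g i e : ℂ) * ip (star (cx g i) * Mn f) (Mn (down g i e))) +
      (cf g i e : ℂ) * ((cf g i f : ℂ) * ip (Mn (down g i e)) (Mn (down g i f))) := by
    unfold rho
    rw [ip_sub_left, ip_sub_right, ip_sub_right, ip_smul_left, ip_smul_left, ip_smul_right,
      ip_smul_right, ip_star_mul_star_mul, cx_mul_Mn, cx_mul_Mn, map_mul, ← ip_conj,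
      Complex.conj_ofReal]
    ring
  rw [h1, cross, cross, ip_Mn]
  by_cases hef : e = f
  · subst hef
    simp only [if_true]
    have h2 : ip (Mn (down g i e)) (Mn (down g i e)) = (nuM (down g i e) : ℂ) := by
      rw [ip_Mn, if_pos rfl]
    rw [h2, map_mul, Complex.conj_ofReal, Complex.conj_ofReal, nuM_up]
    by_cases h0 : e g i = 0
    · have h3 : cf g i e = 0 := by simp [cf, h0]
      rw [h3, h0]
      push_cast
      ring
    · have h4 := nuM_up g i (down g i e)
      rw [up_down g i e h0] at h4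
      have h5 : (down g i e) g i = e g i - 1 := by simp [down]
      have h6 : (((down g i e) g i : ℕ) : ℝ) + 1 = e g i := by
        rw [h5, Nat.cast_sub (Nat.one_le_iff_ne_zero.2 h0)]
        simp
      have h7 : (((down g i e) g 0 : ℕ) : ℝ) + ((down g i e) g 1 : ℕ) + 2 =
          (e g 0 : ℝ) + e g 1 + 1 := by
        have h8 := down_sum g i e h0
        have h9 : (((down g i e) g 0 : ℕ) : ℝ) + ((down g i e) g 1 : ℕ) + 1 =
            (e g 0 : ℝ) + e g 1 := by exact_mod_cast h8
        linarith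
      rw [h6, h7] at h4
      have h10 : nuM (down g i e) * cf g i e = nuM e := by
        rw [h4]
        rfl
      have h11 : (cf g i e : ℂ) * ((cf g i e : ℂ) * (nuM (down g i e) : ℂ)) =
          (cf g i e : ℂ) * (nuM e : ℂ) := by
        rw [← h10]
        push_cast
        ring
      rw [h11]
      have h12 : cf g i e = (e g i : ℝ) / ((e g 0 : ℝ) + e g 1 + 1) := rfl
      rw [← h12]
      push_cast
      ring
  · rw [if_neg hef, if_neg (Ne.symm hef), if_neg hef, if_neg (fun h => hef (up_inj g i h))]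
    have h3 : (cf g i e : ℂ) * ((cf g i f : ℂ) * ip (Mn (down g i e)) (Mn (down g i f))) = 0 := by
      by_cases he : e g i = 0
      · have h4 : cf g i e = 0 := by simp [cf, he]
        rw [h4]
        simp
      · by_cases hf : f g i = 0
        · have h4 : cf g i f = 0 := by simp [cf, hf]
          rw [h4]
          simp
        · rw [ip_Mn, if_neg]
          · simp
          · intro h
            apply hef
            rw [← up_down g i e he, ← up_down g i f hf, h]
    rw [h3]
    simp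

theorem n2_rho_sq_le (g : G) (i : Fin 2) (e : G → Fin 2 → ℕ) :
    n2 (rho g i e) ^ 2 ≤ nuM e / ((e g 0 : ℝ) + e g 1 + 2) := by
  have h := ip_self (rho g i e)
  rw [ip_rho, if_pos rfl] at h
  have h1 : n2 (rho g i e) ^ 2 = nuM e * (((e g i : ℝ) + 1) / ((e g 0 : ℝ) + e g 1 + 2) -
      (e g i : ℝ) / ((e g 0 : ℝ) + e g 1 + 1)) := by
    exact_mod_cast h.symm
  rw [h1, div_eq_mul_inv (nuM e)]
  refine mul_le_mul_of_nonneg_left ?_ (nuM_nonneg e)
  have hT : (0 : ℝ) < (e g 0 : ℝ) + e g 1 + 1 := by positivity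
  have hT2 : (0 : ℝ) < (e g 0 : ℝ) + e g 1 + 2 := by positivity
  have ha : (0 : ℝ) ≤ (e g i : ℝ) := by positivity
  rw [div_sub_div _ _ hT2.ne' hT.ne', inv_eq_one_div, div_le_div_iff₀ (mul_pos hT2 hT) hT2]
  nlinarith [mul_nonneg ha hT2.le]

theorem n2_Mn_sq (e : G → Fin 2 → ℕ) : n2 (Mn e) ^ 2 = nuM e := by
  have h := ip_self (Mn e)
  rw [ip_Mn, if_pos rfl] at h
  exact_mod_cast h.symm

/-! ### Monomials of multi-degree `n` -/

/-- the exponents of `mono n k` -/
def ex (n : G → ℕ) (k : Ix n) : G → Fin 2 → ℕ :=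
  fun g i => if i = 0 then n g - (k g : ℕ) else (k g : ℕ)

omit [DecidableEq G] in
theorem mono_eq (n : G → ℕ) (k : Ix n) : mono n (fun g => (k g : ℕ)) = Mn (ex n k) := by
  unfold mono Mn ex
  simp

omit [Fintype G] [DecidableEq G] in
theorem ex_inj (n : G → ℕ) {k l : Ix n} (h : ex n k = ex n l) : k = l := by
  funext g
  have h1 := congrFun (congrFun h g) 1
  simp only [ex, if_neg (one_ne_zero : (1 : Fin 2) ≠ 0)] at h1
  exact Fin.ext h1

omit [Fintype G] [DecidableEq G] in
theorem ex_sum (n : G → ℕ) (k : Ix n) (g : G) : ex n k g 0 + ex n k g 1 = n g := by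
  have h1 := (k g).2
  simp only [ex, if_true, if_neg (one_ne_zero : (1 : Fin 2) ≠ 0)]
  omega

theorem Mn_mem (n : G → ℕ) (e : G → Fin 2 → ℕ) (h : ∀ g, e g 0 + e g 1 = n g) :
    Mn e ∈ H n := by
  let k : Ix n := fun g => ⟨e g 1, by have := h g; omega⟩
  have h1 : ex n k = e := by
    funext g i
    have h2 := h g
    fin_cases i
    · simp only [ex, Fin.zero_eta, if_true]
      show n g - e g 1 = e g 0
      omega
    · simp only [ex, Fin.mk_one, if_neg (one_ne_zero : (1 : Fin 2) ≠ 0)]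
      rfl
  rw [← h1, ← mono_eq]
  exact Submodule.subset_span ⟨k, rfl⟩

end T5

open T5

theorem asy_cx (g : G) (i : Fin 2) : Asy (Pi.single g 1) (cx g i) := by
  intro ε hε
  refine ⟨0, fun n _ h hh => ⟨cx g i * h, ?_, ?_⟩⟩
  · obtain ⟨a, rfl⟩ := exists_coeff n hh
    rw [Finset.mul_sum]
    refine Submodule.sum_mem _ fun k _ => ?_
    rw [mul_smul_comm, mono_eq, cx_mul_Mn]
    refine Submodule.smul_mem _ _ (Mn_mem _ _ fun g' => ?_)
    have h1 := ex_sum n k g'
    by_cases hg : g' = g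
    · subst hg
      rw [up_sum]
      simp only [shift, Pi.single_eq_same]
      omega
    · rw [up_ne _ _ _ hg, up_ne _ _ _ hg]
      simp only [shift, Pi.single_eq_of_ne hg]
      omega
  · rw [sub_self, n2_zero]
    exact mul_nonneg hε.le (n2_nonneg h)

theorem asy_conj_cx (g : G) (i : Fin 2) : Asy (Pi.single g (-1)) (star (cx g i)) := by
  classical
  intro ε hε
  obtain ⟨N, hN⟩ := exists_nat_gt (1 / ε ^ 2)
  refine ⟨N + 1, fun n hn h hh => ?_⟩
  obtain ⟨a, ha⟩ := exists_coeff n hh
  have ha' : h = ∑ k, a k • Mn (ex n k) := by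
    rw [ha]
    exact Finset.sum_congr rfl fun k _ => by rw [mono_eq]
  refine ⟨∑ k, a k • ((cf g i (ex n k) : ℂ) • Mn (down g i (ex n k))), ?_, ?_⟩
  · refine Submodule.sum_mem _ fun k _ => Submodule.smul_mem _ _ ?_
    by_cases h0 : ex n k g i = 0
    · have h1 : cf g i (ex n k) = 0 := by simp [cf, h0]
      rw [h1]
      simp
    · refine Submodule.smul_mem _ _ (Mn_mem _ _ fun g' => ?_)
      have h1 := ex_sum n k g'
      have h2 := hn g'
      by_cases hg : g' = g
      · subst hg
        have h3 := down_sum g' i (ex n k) h0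
        simp only [shift, Pi.single_eq_same]
        omega
      · rw [down_ne _ _ _ hg, down_ne _ _ _ hg]
        simp only [shift, Pi.single_eq_of_ne hg]
        omega
  · have h1 : star (cx g i) * h - ∑ k, a k • ((cf g i (ex n k) : ℂ) • Mn (down g i (ex n k))) =
        ∑ k, a k • rho g i (ex n k) := by
      rw [ha', Finset.mul_sum, ← Finset.sum_sub_distrib]
      refine Finset.sum_congr rfl fun k _ => ?_
      rw [mul_smul_comm, ← smul_sub]
      rfl
    have h2 : n2 (∑ k, a k • rho g i (ex n k)) ^ 2 = ∑ k, n2 (a k • rho g i (ex n k)) ^ 2 := by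
      refine n2_sum_sq Finset.univ _ fun k _ l _ hkl => ?_
      rw [ip_smul_left, ip_smul_right, ip_rho, if_neg (fun h => hkl (ex_inj n h))]
      simp
    have h3 : n2 h ^ 2 = ∑ k, n2 (a k • Mn (ex n k)) ^ 2 := by
      rw [ha']
      refine n2_sum_sq Finset.univ _ fun k _ l _ hkl => ?_
      rw [ip_smul_left, ip_smul_right, ip_Mn, if_neg (fun h => hkl (ex_inj n h))]
      simp
    have hng : (N : ℝ) + 1 ≤ n g := by exact_mod_cast hn g
    have hpos : (0 : ℝ) < (n g : ℝ) + 2 := by positivity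
    have h4 : n2 (∑ k, a k • rho g i (ex n k)) ^ 2 ≤ n2 h ^ 2 / ((n g : ℝ) + 2) := by
      rw [h2, h3, Finset.sum_div]
      refine Finset.sum_le_sum fun k _ => ?_
      rw [n2_smul, n2_smul, mul_pow, mul_pow, n2_Mn_sq, mul_div_assoc]
      refine mul_le_mul_of_nonneg_left ?_ (by positivity)
      have h5 := n2_rho_sq_le g i (ex n k)
      have h6 : (ex n k g 0 : ℝ) + ex n k g 1 = n g := by exact_mod_cast ex_sum n k g
      rwa [h6] at h5
    have h7 : 1 / ((n g : ℝ) + 2) ≤ ε ^ 2 := by
      have h8 : 1 / ε ^ 2 < (n g : ℝ) + 2 := by linarith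
      rw [div_lt_iff₀ (by positivity)] at h8
      rw [div_le_iff₀ hpos]
      linarith
    rw [h1]
    have h9 : n2 (∑ k, a k • rho g i (ex n k)) ^ 2 ≤ (ε * n2 h) ^ 2 := by
      refine h4.trans ?_
      rw [div_eq_mul_one_div, mul_pow, mul_comm]
      exact mul_le_mul_of_nonneg_right h7 (by positivity)
    exact le_of_sq_le_sq h9 (mul_nonneg hε.le (n2_nonneg h))

end

end Pool.Agent.Helper9.VI
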