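import Pool.Agent.Helper9.VI.Top.Defs

/-!
# VI-T7b: projection to one weight

PROOF. For `M > 0` and `ζ = exp(2πi/M)` (as an element of `Circle`) let
`Av f x = M^{-|G|} ∑_{t : G → Fin M} conj (chr (ζ^t) w) * f (act (ζ^t) x)`; `‖Av f‖ ≤ ‖f‖` (`|chr| = 1`),
`Av f = f` if `f` has weight `w`, and for `p` of weight `v` `Av p = p` if `v = w`, and `0` if some `v g - w g` is not
divisible by `M` (geometric sums, product over `g`). Choose `M` larger than all `|v i g - w g|`: then
`f - ∑_{v i = w} p i = Av (f - ∑ p i)`.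
-/

namespace Pool.Agent.Helper9.VI

open MeasureTheory Filter Topology
open scoped ComplexConjugate Nat

noncomputable section

variable {G : Type} [Fintype G] [DecidableEq G]

omit [DecidableEq G] in
theorem t7b_chr_zero (l : G → Circle) : chr l 0 = 1 := by simp [chr]

omit [DecidableEq G] in
theorem t7b_norm_chr (l : G → Circle) (w : G → ℤ) : ‖chr l w‖ = 1 := by
  unfold chr
  rw [norm_prod]
  refine Finset.prod_eq_one fun g _ => ?_
  rw [norm_zpow, Circle.norm_coe, one_zpow]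

omit [DecidableEq G] in
theorem t7b_chr_sub (l : G → Circle) (v w : G → ℤ) : chr l (v - w) = (chr l w)⁻¹ * chr l v := by
  unfold chr
  rw [← Finset.prod_inv_distrib, ← Finset.prod_mul_distrib]
  refine Finset.prod_congr rfl fun g _ => ?_
  rw [Pi.sub_apply, zpow_sub₀ (Circle.coe_ne_zero _), div_eq_inv_mul]

/-- a root of unity of order `M` -/
def t7bRoot (M : ℕ) : Circle := Circle.exp (2 * Real.pi / M)

theorem t7b_coe_rt (M : ℕ) : ((t7bRoot M : Circle) : ℂ) = Complex.exp (2 * Real.pi * Complex.I / M) := by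
  rw [t7bRoot, Circle.coe_exp]
  congr 1
  push_cast
  ring

theorem t7b_sum_rt (M : ℕ) (hM : 0 < M) (m : ℤ) (hm : m ≠ 0) (hlt : |m| < M) :
    ∑ t : Fin M, (((t7bRoot M ^ (t : ℕ) : Circle) : ℂ)) ^ m = 0 := by
  have hprim : IsPrimitiveRoot ((t7bRoot M : Circle) : ℂ) M := by
    rw [t7b_coe_rt]
    exact Complex.isPrimitiveRoot_exp M hM.ne'
  have hne : (((t7bRoot M : Circle) : ℂ)) ^ m ≠ 1 := by
    intro h
    rw [hprim.zpow_eq_one_iff_dvd] at h
    have := Int.le_of_dvd (abs_pos.2 hm) ((dvd_abs _ _).2 h)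
    omega
  have hpow : ((((t7bRoot M : Circle) : ℂ)) ^ m) ^ M = 1 := by
    rw [← zpow_natCast, ← zpow_mul, mul_comm, zpow_mul, zpow_natCast, hprim.pow_eq_one, one_zpow]
  have h1 : ∀ t : Fin M, (((t7bRoot M ^ (t : ℕ) : Circle) : ℂ)) ^ m =
      ((((t7bRoot M : Circle) : ℂ)) ^ m) ^ (t : ℕ) := by
    intro t
    rw [Circle.coe_pow, ← zpow_natCast, ← zpow_mul, ← zpow_natCast, ← zpow_mul, mul_comm]
  simp only [h1]
  rw [Fin.sum_univ_eq_sum_range (fun t => ((((t7bRoot M : Circle) : ℂ)) ^ m) ^ t) M]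
  have := mul_neg_geom_sum ((((t7bRoot M : Circle) : ℂ)) ^ m) M
  rw [hpow, sub_self] at this
  rcases mul_eq_zero.1 this with h | h
  · exact absurd (sub_eq_zero.1 h).symm hne
  · exact h

theorem t7b_sum_chr (M : ℕ) (hM : 0 < M) (u : G → ℤ) (hu : u ≠ 0) (hlt : ∀ g, |u g| < M) :
    ∑ t : G → Fin M, chr (fun g => t7bRoot M ^ (t g : ℕ)) u = 0 := by
  obtain ⟨g0, hg0⟩ : ∃ g, u g ≠ 0 := by
    by_contra h
    push Not at h
    exact hu (funext h)
  have h1 : ∑ t : G → Fin M, chr (fun g => t7bRoot M ^ (t g : ℕ)) u =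
      ∏ g : G, ∑ s : Fin M, (((t7bRoot M ^ (s : ℕ) : Circle) : ℂ)) ^ (u g) := by
    rw [Finset.prod_univ_sum]
    rw [Fintype.piFinset_univ]
    rfl
  rw [h1]
  exact Finset.prod_eq_zero (Finset.mem_univ g0) (t7b_sum_rt M hM (u g0) hg0 (hlt g0))

/-- projection to one weight -/
theorem wproj (w : G → ℤ) (f : C(X G, ℂ)) (hf : HasWt w f) {k : ℕ} (v : Fin k → G → ℤ)
    (p : Fin k → C(X G, ℂ)) (hp : ∀ i, HasWt (v i) (p i)) :
    ‖f - ∑ i ∈ Finset.univ.filter (fun i => v i = w), p i‖ ≤ ‖f - ∑ i, p i‖ := by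
  -- a bound for all differences
  obtain ⟨M, hM, hlt⟩ : ∃ M : ℕ, 0 < M ∧ ∀ i g, |(v i - w) g| < M := by
    refine ⟨(∑ i, ∑ g, |(v i - w) g|).toNat + 1, Nat.succ_pos _, fun i g => ?_⟩
    have h1 : |(v i - w) g| ≤ ∑ g, |(v i - w) g| :=
      Finset.single_le_sum (f := fun g => |(v i - w) g|) (fun _ _ => abs_nonneg _)
        (Finset.mem_univ g)
    have h2 : ∑ g, |(v i - w) g| ≤ ∑ i, ∑ g, |(v i - w) g| :=
      Finset.single_le_sum (f := fun i => ∑ g, |(v i - w) g|)
        (fun _ _ => Finset.sum_nonneg fun _ _ => abs_nonneg _) (Finset.mem_univ i)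
    have h3 := Int.self_le_toNat (∑ i, ∑ g, |(v i - w) g|)
    push_cast
    omega
  have : NeZero M := ⟨hM.ne'⟩
  rw [ContinuousMap.norm_le _ (norm_nonneg _)]
  intro x
  set l : (G → Fin M) → (G → Circle) := fun t g => t7bRoot M ^ (t g : ℕ) with hl
  set N : ℝ := (Fintype.card (G → Fin M) : ℝ) with hN
  have hNpos : 0 < N := by
    rw [hN]
    exact_mod_cast Fintype.card_pos
  have hterm : ∀ t, (chr (l t) w)⁻¹ * (f - ∑ i, p i) (act (l t) x) =
      f x - ∑ i, chr (l t) (v i - w) * p i x := by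
    intro t
    have hne : chr (l t) w ≠ 0 := by
      intro h
      have := t7b_norm_chr (l t) w
      rw [h, norm_zero] at this
      exact zero_ne_one this
    rw [ContinuousMap.sub_apply, ContinuousMap.sum_apply, hf, mul_sub, inv_mul_cancel_left₀ hne,
      Finset.mul_sum]
    congr 1
    refine Finset.sum_congr rfl fun i _ => ?_
    rw [hp i, t7b_chr_sub, mul_assoc]
  have hsum : ∑ t, (chr (l t) w)⁻¹ * (f - ∑ i, p i) (act (l t) x) =
      (N : ℂ) * (f x - ∑ i ∈ Finset.univ.filter (fun i => v i = w), p i x) := by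
    simp only [hterm]
    rw [Finset.sum_sub_distrib, Finset.sum_const, Finset.card_univ, Finset.sum_comm, mul_sub,
      nsmul_eq_mul, Finset.sum_filter, Finset.mul_sum]
    congr 1
    · refine Finset.sum_congr rfl fun i _ => ?_
      rw [← Finset.sum_mul]
      by_cases h : v i = w
      · rw [if_pos h, h, sub_self]
        simp only [t7b_chr_zero, Finset.sum_const, Finset.card_univ, nsmul_eq_mul, mul_one]
        rw [hN]; push_cast; rfl
      · rw [if_neg h, mul_zero, t7b_sum_chr M hM (v i - w) (sub_ne_zero.2 h) (hlt i), zero_mul]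
  have hbound : ‖∑ t, (chr (l t) w)⁻¹ * (f - ∑ i, p i) (act (l t) x)‖ ≤
      N * ‖f - ∑ i, p i‖ := by
    refine (norm_sum_le _ _).trans ?_
    have : ∀ t ∈ (Finset.univ : Finset (G → Fin M)),
        ‖(chr (l t) w)⁻¹ * (f - ∑ i, p i) (act (l t) x)‖ ≤ ‖f - ∑ i, p i‖ := by
      intro t _
      rw [norm_mul, norm_inv, t7b_norm_chr, inv_one, one_mul]
      exact ContinuousMap.norm_coe_le_norm _ _
    refine (Finset.sum_le_sum this).trans ?_
    rw [Finset.sum_const, Finset.card_univ, nsmul_eq_mul]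
  rw [hsum, norm_mul, Complex.norm_real, Real.norm_of_nonneg hNpos.le] at hbound
  have := le_of_mul_le_mul_left hbound hNpos
  rw [ContinuousMap.sub_apply, ContinuousMap.sum_apply]
  exact this

end

end Pool.Agent.Helper9.VI
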