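import Pool.Agent.Helper9.VI.Top.Dens1
import Pool.Agent.Helper9.VI.Top.Dens2

/-!
# VI-T7c: every continuous function of weight `w` is an asymptotic multiplier

PROOF. `wsum_dense`, `wproj`, `Asy_of_approx`, `Asy_add`, `Asy_zero`.
-/

namespace Pool.Agent.Helper9.VI

open MeasureTheory Filter Topology
open scoped ComplexConjugate Nat

noncomputable section

variable {G : Type} [Fintype G] [DecidableEq G]

theorem asy_of_hasWt (w : G → ℤ) (f : C(X G, ℂ)) (hf : HasWt w f) : Asy w f := by
  apply Asy_of_approx
  intro ε hε
  obtain ⟨k, v, p, hp, hpa, hpn⟩ := wsum_dense f ε hε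
  refine ⟨∑ i ∈ Finset.univ.filter (fun i => v i = w), p i, ?_,
    (wproj w f hf v p hp).trans hpn⟩
  have key : ∀ s : Finset (Fin k), (∀ i ∈ s, v i = w) → Asy w (∑ i ∈ s, p i) := by
    intro s
    induction s using Finset.induction_on with
    | empty =>
      intro _
      rw [Finset.sum_empty]
      exact Asy_zero w
    | insert i s hi ih =>
      intro h
      rw [Finset.sum_insert hi]
      refine Asy_add ?_ (ih fun j hj => h j (Finset.mem_insert_of_mem hj))
      have h1 := hpa i
      rw [h i (Finset.mem_insert_self i s)] at h1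
      exact h1
  exact key _ fun i hi => (Finset.mem_filter.1 hi).2

end

end Pool.Agent.Helper9.VI
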