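import Pool.Agent.Helper9.VI.Top.Coord
import Pool.Agent.Helper9.VI.Top.Clos

/-!
# VI-T7a: density of the sums of weighted asymptotic multipliers

PROOF. `Good w p := HasWt w p ∧ Asy w p ∧ Asy (-w) (star p)`: closed under products and star; the
coordinates `cx g i` have it with `w = Pi.single g 1` (`asy_cx`, `asy_conj_cx`); constants with
`w = 0`. So the finite sums of good functions (of arbitrary weights) form a star subalgebra of `C(X G, ℂ)`; it
separates the points (coordinates), so it is dense (Stone-Weierstrass,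
`ContinuousMap.starSubalgebra_topologicalClosure_eq_top_of_separatesPoints`).
-/

namespace Pool.Agent.Helper9.VI

open MeasureTheory Filter Topology
open scoped ComplexConjugate Nat

noncomputable section

variable {G : Type} [Fintype G] [DecidableEq G]

/-- good functions -/
def Good8 (w : G → ℤ) (p : C(X G, ℂ)) : Prop := HasWt w p ∧ Asy w p ∧ Asy (-w) (star p)

theorem chr_add8 (l : G → Circle) (w v : G → ℤ) : chr l (w + v) = chr l w * chr l v := by
  unfold chr
  rw [← Finset.prod_mul_distrib]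
  refine Finset.prod_congr rfl fun g _ => ?_
  rw [Pi.add_apply, zpow_add₀ (Circle.coe_ne_zero _)]

theorem chr_neg8 (l : G → Circle) (w : G → ℤ) : chr l (-w) = conj (chr l w) := by
  unfold chr
  rw [map_prod]
  refine Finset.prod_congr rfl fun g _ => ?_
  rw [Pi.neg_apply, map_zpow₀, ← Circle.coe_inv_eq_conj, Circle.coe_inv, inv_zpow, zpow_neg]

theorem chr_single8 (l : G → Circle) (g : G) : chr l (Pi.single g 1) = l g := by
  unfold chr
  rw [Finset.prod_eq_single g]
  · simp
  · intro b _ hb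
    simp [Pi.single_apply, hb]
  · simp

theorem good_mul8 {w v : G → ℤ} {p q : C(X G, ℂ)} (hp : Good8 w p) (hq : Good8 v q) :
    Good8 (w + v) (p * q) := by
  refine ⟨?_, Asy_mul hp.2.1 hq.2.1, ?_⟩
  · intro l x
    simp only [ContinuousMap.mul_apply, hp.1 l x, hq.1 l x, chr_add8]
    ring
  · rw [star_mul, mul_comm, neg_add]
    exact Asy_mul hp.2.2 hq.2.2

theorem good_star8 {w : G → ℤ} {p : C(X G, ℂ)} (hp : Good8 w p) : Good8 (-w) (star p) := by
  refine ⟨?_, hp.2.2, ?_⟩
  · intro l x
    simp only [ContinuousMap.star_apply, hp.1 l x, chr_neg8, star_mul', RCLike.star_def]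
  · rw [neg_neg, star_star]
    exact hp.2.1

theorem good_smul8 {w : G → ℤ} {p : C(X G, ℂ)} (hp : Good8 w p) (c : ℂ) : Good8 w (c • p) := by
  refine ⟨?_, Asy_smul hp.2.1 c, ?_⟩
  · intro l x
    simp only [ContinuousMap.smul_apply, hp.1 l x, smul_eq_mul]
    ring
  · rw [star_smul]
    exact Asy_smul hp.2.2 _

theorem good_one8 : Good8 (G := G) 0 1 := by
  have h1 : (1 : C(X G, ℂ)) = ContinuousMap.const _ 1 := rfl
  refine ⟨?_, ?_, ?_⟩
  · intro l x
    simp [chr]
  · rw [h1]; exact Asy_const 1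
  · rw [star_one, neg_zero, h1]; exact Asy_const 1

theorem good_cx8 (g : G) (i : Fin 2) : Good8 (Pi.single g 1) (cx g i) := by
  refine ⟨?_, asy_cx g i, ?_⟩
  · intro l x
    rw [chr_single8]
    change S3.co i (S3.rot (l g) (x g)) = l g * S3.co i (x g)
    unfold S3.co S3.rot
    split_ifs <;> rfl
  · have : -(Pi.single g (1 : ℤ) : G → ℤ) = Pi.single g (-1) := by
      rw [Pi.single_neg]
    rw [this]
    exact asy_conj_cx g i

/-- the submonoid of good functions -/
def goodM8 : Submonoid C(X G, ℂ) where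
  carrier := {p | ∃ w, Good8 w p}
  one_mem' := ⟨0, good_one8⟩
  mul_mem' := by
    rintro p q ⟨w, hw⟩ ⟨v, hv⟩
    exact ⟨w + v, good_mul8 hw hv⟩

theorem ext_S38 (p q : S3) (h : ∀ i, S3.co i p = S3.co i q) : p = q := by
  apply Subtype.ext
  apply Prod.ext
  · simpa [S3.co] using h 0
  · simpa [S3.co] using h 1

/-- approximation by sums of weighted pieces -/
theorem wsum_dense (f : C(X G, ℂ)) (ε : ℝ) (hε : 0 < ε) :
    ∃ (k : ℕ) (w : Fin k → G → ℤ) (p : Fin k → C(X G, ℂ)),
      (∀ i, HasWt (w i) (p i)) ∧ (∀ i, Asy (w i) (p i)) ∧ ‖f - ∑ i, p i‖ ≤ ε := by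
  classical
  set T : Set C(X G, ℂ) := ((goodM8 : Submonoid C(X G, ℂ)) : Set C(X G, ℂ)) with hT
  have hTstar : star T = T := by
    have h1 : ∀ p, p ∈ T → star p ∈ T := by
      rintro p ⟨w, hw⟩
      exact ⟨-w, good_star8 hw⟩
    ext p
    constructor
    · intro hp
      have := h1 _ hp
      rwa [star_star] at this
    · intro hp
      exact h1 _ hp
  set A : StarSubalgebra ℂ C(X G, ℂ) := StarAlgebra.adjoin ℂ T with hA
  have hsep : A.SeparatesPoints := by
    intro x y hxy
    have : ∃ g i, S3.co i (x g) ≠ S3.co i (y g) := by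
      by_contra hcon
      push Not at hcon
      apply hxy
      funext g
      exact ext_S38 _ _ (hcon g)
    obtain ⟨g, i, hgi⟩ := this
    refine ⟨cx g i, ⟨cx g i, ?_, rfl⟩, hgi⟩
    exact StarAlgebra.subset_adjoin ℂ T ⟨Pi.single g 1, good_cx8 g i⟩
  have htop := ContinuousMap.starSubalgebra_topologicalClosure_eq_top_of_separatesPoints A hsep
  have hf : f ∈ closure (A : Set C(X G, ℂ)) := by
    have : f ∈ A.topologicalClosure := by rw [htop]; trivial
    exact this
  obtain ⟨a, ha, hfa⟩ := Metric.mem_closure_iff.1 hf ε hε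
  have haspan : a ∈ Submodule.span ℂ T := by
    have h2 : a ∈ Algebra.adjoin ℂ (T ∪ star T) := ha
    rw [hTstar, Set.union_self] at h2
    have h3 : a ∈ Subalgebra.toSubmodule (Algebra.adjoin ℂ T) := h2
    rw [Algebra.adjoin_eq_span, hT, Submonoid.closure_eq] at h3
    exact h3
  obtain ⟨n, c, g, hsum⟩ := Submodule.mem_span_set'.1 haspan
  have hg : ∀ i, ∃ w, Good8 w (g i : C(X G, ℂ)) := fun i => (g i).2
  choose w hw using hg
  refine ⟨n, w, fun i => c i • (g i : C(X G, ℂ)), ?_, ?_, ?_⟩
  · intro i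
    exact (good_smul8 (hw i) (c i)).1
  · intro i
    exact (good_smul8 (hw i) (c i)).2.1
  · rw [hsum, ← dist_eq_norm]
    exact hfa.le

end

end Pool.Agent.Helper9.VI
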