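import Pool.Agent.Helper9.VI.Top.Defs

/-!
# VI-T1: the measure on `S3` and its moments

PROOF. `par` is continuous, `mu` is the image of the Lebesgue measure of the unit cube, hence a
probability measure. `integral_map`, Fubini on the cube (`setIntegral_prod`): the integrand is
`(1-t)^((a+a')/2) t^((b+b')/2) e^(2πi(a-a')x) e^(2πi(b-b')y)` (as `√`-powers); the integrals in `x`, `y` vanish
unless `a = a'`, `b = b'` (`∫_0^1 e^(2πikx) dx = 0` for an integer `k ≠ 0`), and
`∫_0^1 (1-t)^a t^b dt = a! b! / (a+b+1)!` (Beta integral; Mathlib `Complex.betaIntegral` with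
`Complex.Gamma_mul_Gamma_eq_betaIntegral`, or induction by parts).
-/

namespace Pool.Agent.Helper9.VI

open MeasureTheory Filter Topology
open scoped ComplexConjugate Nat

noncomputable section

theorem continuous_par : Continuous par := by
  unfold par
  refine Continuous.subtype_mk ?_ _
  fun_prop

instance mom_restr : IsProbabilityMeasure ((volume : Measure (ℝ × ℝ × ℝ)).restrict
    (Set.Icc (0 : ℝ) 1 ×ˢ Set.Icc (0 : ℝ) 1 ×ˢ Set.Icc (0 : ℝ) 1)) := by
  refine ⟨?_⟩
  rw [Measure.restrict_apply MeasurableSet.univ, Set.univ_inter, Measure.volume_eq_prod,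
    Measure.prod_prod, Measure.volume_eq_prod, Measure.prod_prod]
  simp

instance : IsProbabilityMeasure mu := by
  unfold mu
  exact Measure.isProbabilityMeasure_map continuous_par.measurable.aemeasurable

/-- the oscillating integrals -/
lemma mom_osc (a a' : ℕ) :
    ∫ x in Set.Icc (0 : ℝ) 1, Complex.exp (2 * Real.pi * Complex.I * x) ^ a *
      conj (Complex.exp (2 * Real.pi * Complex.I * x) ^ a') = if a = a' then 1 else 0 := by
  have hfun : ∀ x : ℝ, Complex.exp (2 * Real.pi * Complex.I * x) ^ a *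
      conj (Complex.exp (2 * Real.pi * Complex.I * x) ^ a') =
      Complex.exp ((((a : ℤ) - (a' : ℤ) : ℤ) : ℂ) * (2 * Real.pi * Complex.I) * x) := by
    intro x
    rw [map_pow, ← Complex.exp_conj, ← Complex.exp_nat_mul, ← Complex.exp_nat_mul,
      ← Complex.exp_add]
    congr 1
    simp only [map_mul, Complex.conj_I, Complex.conj_ofReal, map_ofNat]
    push_cast
    ring
  simp only [hfun]
  rw [integral_Icc_eq_integral_Ioc, ← intervalIntegral.integral_of_le zero_le_one]
  by_cases h : a = a'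
  · subst h
    simp
  · rw [if_neg h]
    have hne : (((a : ℤ) - (a' : ℤ) : ℤ) : ℂ) ≠ 0 := by
      rw [Int.cast_ne_zero]
      omega
    rw [integral_exp_mul_complex (mul_ne_zero hne Complex.two_pi_I_ne_zero)]
    simp only [Complex.ofReal_one, mul_one, Complex.ofReal_zero, mul_zero, Complex.exp_zero]
    rw [Complex.exp_int_mul_two_pi_mul_I]
    simp

/-- the Beta integral -/
lemma mom_beta (a b : ℕ) :
    ∫ t in Set.Icc (0 : ℝ) 1, ((Real.sqrt (1 - min 1 (max 0 t)) : ℂ) ^ a *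
      (Real.sqrt (min 1 (max 0 t)) : ℂ) ^ b) * ((Real.sqrt (1 - min 1 (max 0 t)) : ℂ) ^ a *
      (Real.sqrt (min 1 (max 0 t)) : ℂ) ^ b) =
      ((a ! * b ! : ℕ) : ℂ) / ((a + b + 1)! : ℕ) := by
  have h1 : ∫ t in Set.Icc (0 : ℝ) 1, ((Real.sqrt (1 - min 1 (max 0 t)) : ℂ) ^ a *
      (Real.sqrt (min 1 (max 0 t)) : ℂ) ^ b) * ((Real.sqrt (1 - min 1 (max 0 t)) : ℂ) ^ a *
      (Real.sqrt (min 1 (max 0 t)) : ℂ) ^ b) = ∫ t in Set.Icc (0 : ℝ) 1,
      (t : ℂ) ^ (((b : ℂ) + 1) - 1) * (1 - (t : ℂ)) ^ (((a : ℂ) + 1) - 1) := by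
    refine setIntegral_congr_fun measurableSet_Icc fun t ht => ?_
    have hc : min 1 (max 0 t) = t := by
      rw [max_eq_right ht.1, min_eq_right ht.2]
    simp only [hc, add_sub_cancel_right, Complex.cpow_natCast]
    have e1 : (Real.sqrt (1 - t) : ℂ) * (Real.sqrt (1 - t) : ℂ) = 1 - (t : ℂ) := by
      rw [← Complex.ofReal_mul, Real.mul_self_sqrt (by linarith [ht.2])]
      push_cast
      ring
    have e2 : (Real.sqrt t : ℂ) * (Real.sqrt t : ℂ) = (t : ℂ) := by
      rw [← Complex.ofReal_mul, Real.mul_self_sqrt ht.1]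
    rw [← e1, ← e2]
    ring
  rw [h1, integral_Icc_eq_integral_Ioc, ← intervalIntegral.integral_of_le zero_le_one]
  have h2 := Complex.Gamma_mul_Gamma_eq_betaIntegral (s := (b : ℂ) + 1) (t := (a : ℂ) + 1)
    (by simp; positivity) (by simp; positivity)
  rw [Complex.Gamma_nat_eq_factorial, Complex.Gamma_nat_eq_factorial,
    show ((b : ℂ) + 1 + ((a : ℂ) + 1)) = ((a + b + 1 : ℕ) : ℂ) + 1 by push_cast; ring,
    Complex.Gamma_nat_eq_factorial, Complex.betaIntegral] at h2
  rw [eq_div_iff (by exact_mod_cast Nat.factorial_ne_zero _)]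
  rw [mul_comm, ← h2]
  push_cast
  ring

theorem moment_S3 (a b a' b' : ℕ) :
    ∫ p, (S3.co 0 p ^ a * S3.co 1 p ^ b) * conj (S3.co 0 p ^ a' * S3.co 1 p ^ b') ∂mu =
      if a = a' ∧ b = b' then ((a ! * b ! : ℕ) : ℂ) / ((a + b + 1)! : ℕ) else 0 := by
  have hcont : Continuous fun p : S3 => (S3.co 0 p ^ a * S3.co 1 p ^ b) *
      conj (S3.co 0 p ^ a' * S3.co 1 p ^ b') := by
    have h0 := S3.continuous_co 0
    have h1 := S3.continuous_co 1
    exact ((h0.pow _).mul (h1.pow _)).mul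
      (Complex.continuous_conj.comp ((h0.pow _).mul (h1.pow _)))
  unfold mu
  rw [integral_map continuous_par.measurable.aemeasurable hcont.aestronglyMeasurable]
  have hfun : ∀ q : ℝ × ℝ × ℝ, (S3.co 0 (par q) ^ a * S3.co 1 (par q) ^ b) *
      conj (S3.co 0 (par q) ^ a' * S3.co 1 (par q) ^ b') =
      (((Real.sqrt (1 - min 1 (max 0 q.1)) : ℂ) ^ a * (Real.sqrt (min 1 (max 0 q.1)) : ℂ) ^ b) *
        ((Real.sqrt (1 - min 1 (max 0 q.1)) : ℂ) ^ a' *
          (Real.sqrt (min 1 (max 0 q.1)) : ℂ) ^ b')) *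
      ((Complex.exp (2 * Real.pi * Complex.I * q.2.1) ^ a *
        conj (Complex.exp (2 * Real.pi * Complex.I * q.2.1) ^ a')) *
       (Complex.exp (2 * Real.pi * Complex.I * q.2.2) ^ b *
        conj (Complex.exp (2 * Real.pi * Complex.I * q.2.2) ^ b'))) := by
    intro q
    have e0 : S3.co 0 (par q) = (Real.sqrt (1 - min 1 (max 0 q.1)) : ℂ) *
        Complex.exp (2 * Real.pi * Complex.I * q.2.1) := by
      simp [S3.co, par]
    have e1 : S3.co 1 (par q) = (Real.sqrt (min 1 (max 0 q.1)) : ℂ) *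
        Complex.exp (2 * Real.pi * Complex.I * q.2.2) := by
      simp [S3.co, par]
    rw [e0, e1]
    simp only [map_mul, map_pow, Complex.conj_ofReal]
    ring
  simp only [hfun]
  rw [Measure.volume_eq_prod, setIntegral_prod_mul
    (fun t : ℝ => (((Real.sqrt (1 - min 1 (max 0 t)) : ℂ) ^ a *
        (Real.sqrt (min 1 (max 0 t)) : ℂ) ^ b) *
        ((Real.sqrt (1 - min 1 (max 0 t)) : ℂ) ^ a' *
          (Real.sqrt (min 1 (max 0 t)) : ℂ) ^ b')))
    (fun r : ℝ × ℝ => ((Complex.exp (2 * Real.pi * Complex.I * r.1) ^ a *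
        conj (Complex.exp (2 * Real.pi * Complex.I * r.1) ^ a')) *
       (Complex.exp (2 * Real.pi * Complex.I * r.2) ^ b *
        conj (Complex.exp (2 * Real.pi * Complex.I * r.2) ^ b')))),
    Measure.volume_eq_prod, setIntegral_prod_mul
    (fun x : ℝ => Complex.exp (2 * Real.pi * Complex.I * x) ^ a *
        conj (Complex.exp (2 * Real.pi * Complex.I * x) ^ a'))
    (fun x : ℝ => Complex.exp (2 * Real.pi * Complex.I * x) ^ b *
        conj (Complex.exp (2 * Real.pi * Complex.I * x) ^ b')), mom_osc, mom_osc]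
  by_cases h : a = a' ∧ b = b'
  · obtain ⟨rfl, rfl⟩ := h
    rw [mom_beta]
    simp
  · rw [if_neg h]
    by_cases ha : a = a'
    · have hb : b ≠ b' := fun hb => h ⟨ha, hb⟩
      simp [hb]
    · simp [ha]

end

end Pool.Agent.Helper9.VI
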