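import Pool.Agent.Helper9.VI.Top.Mom

/-!
# VI-T2: moments on the product

PROOF. `muX` is a product of probability measures. The integrand is a product over `g` of functions of
`x g`; `MeasureTheory.integral_fintype_prod_eq_prod` and `moment_S3`.
-/

namespace Pool.Agent.Helper9.VI

open MeasureTheory Filter Topology
open scoped ComplexConjugate Nat

noncomputable section

variable {G : Type} [Fintype G] [DecidableEq G]

instance : IsProbabilityMeasure (muX (G := G)) := by
  unfold muX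
  infer_instance

theorem moment_X (a b a' b' : G → ℕ) :
    ∫ x, (∏ g, (cx g 0 x ^ a g * cx g 1 x ^ b g)) *
        conj (∏ g, (cx g 0 x ^ a' g * cx g 1 x ^ b' g)) ∂(muX (G := G)) =
      ∏ g, if a g = a' g ∧ b g = b' g then
        (((a g)! * (b g)! : ℕ) : ℂ) / ((a g + b g + 1)! : ℕ) else 0 := by
  have h1 : ∀ x : X G, (∏ g, (cx g 0 x ^ a g * cx g 1 x ^ b g)) *
        conj (∏ g, (cx g 0 x ^ a' g * cx g 1 x ^ b' g)) =
      ∏ g, ((S3.co 0 (x g) ^ a g * S3.co 1 (x g) ^ b g) *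
        conj (S3.co 0 (x g) ^ a' g * S3.co 1 (x g) ^ b' g)) := by
    intro x
    rw [map_prod, ← Finset.prod_mul_distrib]
    rfl
  have h2 := MeasureTheory.integral_fintype_prod_eq_prod (𝕜 := ℂ) (ι := G) (E := fun _ => S3)
    (μ := fun _ => mu)
    (fun g p => (S3.co 0 p ^ a g * S3.co 1 p ^ b g) *
      conj (S3.co 0 p ^ a' g * S3.co 1 p ^ b' g))
  calc ∫ x, (∏ g, (cx g 0 x ^ a g * cx g 1 x ^ b g)) *
        conj (∏ g, (cx g 0 x ^ a' g * cx g 1 x ^ b' g)) ∂(muX (G := G))
      = ∫ x, ∏ g, ((S3.co 0 (x g) ^ a g * S3.co 1 (x g) ^ b g) *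
        conj (S3.co 0 (x g) ^ a' g * S3.co 1 (x g) ^ b' g)) ∂(muX (G := G)) :=
        integral_congr_ae (Filter.Eventually.of_forall h1)
    _ = ∏ g, ∫ p, (S3.co 0 p ^ a g * S3.co 1 p ^ b g) *
        conj (S3.co 0 p ^ a' g * S3.co 1 p ^ b' g) ∂mu := h2
    _ = _ := by
        refine Finset.prod_congr rfl fun g _ => ?_
        exact moment_S3 (a g) (b g) (a' g) (b' g)

end

end Pool.Agent.Helper9.VI
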