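import Pool.Agent.Helper9.VI.Top.Mom2

/-!
# VI-T3: the `L²` norm

PROOF. `n2 f` is the norm of the class of `f` in `Lp ℂ 2 muX` (`ContinuousMap.toLp`, `L2.norm_def..`,
`MeasureTheory.L2.inner_def`), so the triangle inequality and homogeneity hold;
`‖f x h x‖ ≤ ‖f‖ ‖h x‖`, probability measure. (Or directly: Cauchy-Schwarz for the form
`⟪f, g⟫ = ∫ conj f g`.)
-/

namespace Pool.Agent.Helper9.VI

open MeasureTheory Filter Topology
open scoped ComplexConjugate Nat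

noncomputable section

variable {G : Type} [Fintype G] [DecidableEq G]

/-- the class of `f` in `L²` -/
def toL267 (f : C(X G, ℂ)) : Lp ℂ 2 (muX (G := G)) := ContinuousMap.toLp (E := ℂ) 2 muX ℂ f

theorem inner_toL267 (f g : C(X G, ℂ)) :
    inner ℂ (toL267 f) (toL267 g) = ∫ x, conj (f x) * g x ∂(muX (G := G)) := by
  unfold toL267
  rw [ContinuousMap.inner_toLp]
  refine integral_congr_ae (Eventually.of_forall fun x => ?_)
  exact mul_comm _ _

theorem conj_mul_self67 (f : C(X G, ℂ)) (x : X G) :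
    conj (f x) * f x = ((‖f x‖ ^ 2 : ℝ) : ℂ) := by
  rw [mul_comm, Complex.mul_conj, Complex.normSq_eq_norm_sq]

theorem n2_eq67 (f : C(X G, ℂ)) : n2 f = ‖toL267 f‖ := by
  have h : ‖toL267 f‖ ^ 2 = ∫ x, ‖f x‖ ^ 2 ∂(muX (G := G)) := by
    have h1 := inner_self_eq_norm_sq_to_K (𝕜 := ℂ) (toL267 f)
    rw [inner_toL267] at h1
    have h2 : ∫ x, conj (f x) * f x ∂(muX (G := G)) =
        ((∫ x, ‖f x‖ ^ 2 ∂(muX (G := G)) : ℝ) : ℂ) := by
      rw [← integral_complex_ofReal]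
      refine integral_congr_ae (Eventually.of_forall fun x => ?_)
      exact conj_mul_self67 f x
    rw [h2] at h1
    have h3 : ((∫ x, ‖f x‖ ^ 2 ∂(muX (G := G)) : ℝ) : ℂ) = ((‖toL267 f‖ ^ 2 : ℝ) : ℂ) := by
      rw [h1]; push_cast; rfl
    exact (Complex.ofReal_injective h3).symm
  unfold n2
  rw [← h, Real.sqrt_sq (norm_nonneg _)]

theorem n2_nonneg (f : C(X G, ℂ)) : 0 ≤ n2 f := Real.sqrt_nonneg _

theorem n2_zero : n2 (0 : C(X G, ℂ)) = 0 := by
  rw [n2_eq67]; unfold toL267; rw [map_zero, norm_zero]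

theorem n2_add_le (f g : C(X G, ℂ)) : n2 (f + g) ≤ n2 f + n2 g := by
  rw [n2_eq67, n2_eq67, n2_eq67]; unfold toL267; rw [map_add]; exact norm_add_le _ _

theorem n2_smul (c : ℂ) (f : C(X G, ℂ)) : n2 (c • f) = ‖c‖ * n2 f := by
  rw [n2_eq67, n2_eq67]; unfold toL267; rw [map_smul, norm_smul]

theorem n2_neg (f : C(X G, ℂ)) : n2 (-f) = n2 f := by
  rw [n2_eq67, n2_eq67]; unfold toL267; rw [map_neg, norm_neg]

theorem n2_sub_le (f g : C(X G, ℂ)) : n2 (f - g) ≤ n2 f + n2 g := by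
  rw [sub_eq_add_neg, ← n2_neg g]; exact n2_add_le _ _

theorem n2_mul_le (f h : C(X G, ℂ)) : n2 (f * h) ≤ ‖f‖ * n2 h := by
  have hi : ∀ g : C(X G, ℂ), Integrable (fun x => ‖g x‖ ^ 2) (muX (G := G)) := fun g =>
    (by fun_prop : Continuous (fun x => ‖g x‖ ^ 2)).integrable_of_hasCompactSupport
      (HasCompactSupport.of_compactSpace _)
  have h1 : ∫ x, ‖(f * h) x‖ ^ 2 ∂(muX (G := G)) ≤ ‖f‖ ^ 2 * ∫ x, ‖h x‖ ^ 2 ∂(muX (G := G)) := by
    rw [← integral_const_mul]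
    refine integral_mono (hi (f * h)) ((hi h).const_mul _) (fun x => ?_)
    simp only [ContinuousMap.mul_apply, norm_mul, mul_pow]
    exact mul_le_mul_of_nonneg_right (pow_le_pow_left₀ (norm_nonneg _) (f.norm_coe_le_norm x) 2)
      (by positivity)
  unfold n2
  calc Real.sqrt (∫ x, ‖(f * h) x‖ ^ 2 ∂(muX (G := G)))
      ≤ Real.sqrt (‖f‖ ^ 2 * ∫ x, ‖h x‖ ^ 2 ∂(muX (G := G))) := Real.sqrt_le_sqrt h1
    _ = ‖f‖ * Real.sqrt (∫ x, ‖h x‖ ^ 2 ∂(muX (G := G))) := by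
      rw [Real.sqrt_mul (by positivity), Real.sqrt_sq (norm_nonneg _)]

theorem n2_sum_le {ι : Type} (T : Finset ι) (f : ι → C(X G, ℂ)) :
    n2 (∑ i ∈ T, f i) ≤ ∑ i ∈ T, n2 (f i) := by
  classical
  induction T using Finset.induction_on with
  | empty => rw [Finset.sum_empty, Finset.sum_empty, n2_zero]
  | insert a s ha ih =>
    rw [Finset.sum_insert ha, Finset.sum_insert ha]
    exact (n2_add_le _ _).trans (by linarith)

/-- the scalar product -/
def ip (f g : C(X G, ℂ)) : ℂ := ∫ x, conj (f x) * g x ∂(muX (G := G))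

theorem ip_eq67 (f g : C(X G, ℂ)) : ip f g = inner ℂ (toL267 f) (toL267 g) :=
  (inner_toL267 f g).symm

theorem ip_self (f : C(X G, ℂ)) : ip f f = ((n2 f ^ 2 : ℝ) : ℂ) := by
  rw [ip_eq67, inner_self_eq_norm_sq_to_K, n2_eq67]
  push_cast; rfl

/-- Parseval for an orthogonal family -/
theorem n2_sum_sq {ι : Type} (T : Finset ι) (f : ι → C(X G, ℂ))
    (h : ∀ i ∈ T, ∀ j ∈ T, i ≠ j → ip (f i) (f j) = 0) :
    n2 (∑ i ∈ T, f i) ^ 2 = ∑ i ∈ T, n2 (f i) ^ 2 := by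
  apply Complex.ofReal_injective
  rw [← ip_self, ip_eq67]
  have e : toL267 (∑ i ∈ T, f i) = ∑ i ∈ T, toL267 (f i) := by
    unfold toL267; rw [map_sum]
  rw [e, sum_inner]
  push_cast
  refine Finset.sum_congr rfl (fun i hi => ?_)
  rw [inner_sum, Finset.sum_eq_single_of_mem i hi
    (fun j hj hji => by rw [← ip_eq67]; exact h i hi j hj (Ne.symm hji))]
  rw [← ip_eq67, ip_self]
  push_cast; rfl

end

end Pool.Agent.Helper9.VI
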